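import Mathlib

set_option autoImplicit false

/-!
# Planting a cycle in a regular graph, part 2: growth of the level sums
-/

namespace Pool.Agent.helper42.PB

open Finset

variable {q : ℕ} {μ κ : ℝ} {ρ : ℕ}

lemma grow_step (hq : 2 ≤ q) (hμ : 2 * Real.sqrt q ≤ |μ|) (hκ : |κ| ≤ 1) (s : ℕ → ℝ)
    (h1 : s 1 = (μ - κ) * s 0) (hrec : ∀ j, j + 2 ≤ ρ → s (j + 2) = μ * s (j + 1) - q * s j)
    (j : ℕ) (hj : j + 1 ≤ ρ) :
    Real.sqrt q * |s j| + (1 - (Real.sqrt q)⁻¹) * |s 0| * Real.sqrt q ^ (j + 1) ≤ |s (j + 1)| := by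
  set t := Real.sqrt q with ht
  have hq' : (2 : ℝ) ≤ q := by exact_mod_cast hq
  have ht2 : t ^ 2 = q := Real.sq_sqrt (by positivity)
  have ht0 : 0 < t := Real.sqrt_pos.2 (by linarith)
  have hti : t * t⁻¹ = 1 := mul_inv_cancel₀ ht0.ne'
  induction j with
  | zero =>
    simp only [zero_add, pow_one]
    rw [h1, abs_mul]
    have h2 : 2 * t - 1 ≤ |μ - κ| := by
      have := abs_sub_abs_le_abs_sub μ κ
      linarith
    have h3 := abs_nonneg (s 0)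
    have h4 : (2 * t - 1) * |s 0| ≤ |μ - κ| * |s 0| := mul_le_mul_of_nonneg_right h2 h3
    have h5 : t * |s 0| + (1 - t⁻¹) * |s 0| * t = (t + t - t * t⁻¹) * |s 0| := by ring
    rw [h5, hti]
    linarith
  | succ j ih =>
    have ih := ih (by omega)
    rw [hrec j (by omega)]
    have h2 : |μ * s (j + 1)| - |(q : ℝ) * s j| ≤ |μ * s (j + 1) - q * s j| :=
      abs_sub_abs_le_abs_sub _ _
    rw [abs_mul, abs_mul, abs_of_nonneg (by positivity : (0:ℝ) ≤ q), ← ht2] at h2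
    have h3 : 2 * t * |s (j + 1)| ≤ |μ| * |s (j + 1)| :=
      mul_le_mul_of_nonneg_right hμ (abs_nonneg _)
    have h4 := mul_le_mul_of_nonneg_left ih ht0.le
    have h5 : t * (t * |s j| + (1 - t⁻¹) * |s 0| * t ^ (j + 1)) =
        t ^ 2 * |s j| + (1 - t⁻¹) * |s 0| * t ^ (j + 1 + 1) := by ring
    rw [h5] at h4
    rw [← ht2]
    linarith

lemma grow (hq : 2 ≤ q) (hμ : 2 * Real.sqrt q ≤ |μ|) (hκ : |κ| ≤ 1) (s : ℕ → ℝ)
    (h1 : s 1 = (μ - κ) * s 0) (hrec : ∀ j, j + 2 ≤ ρ → s (j + 2) = μ * s (j + 1) - q * s j)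
    (j : ℕ) (hj : j ≤ ρ) :
    |s 0| * Real.sqrt q ^ j * (1 + (1 - (Real.sqrt q)⁻¹) * j) ≤ |s j| := by
  have ht0 := Real.sqrt_nonneg (q : ℝ)
  induction j with
  | zero => simp
  | succ j ih =>
    have ih := ih (by omega)
    have h2 := grow_step hq hμ hκ s h1 hrec j (by omega)
    have h3 := mul_le_mul_of_nonneg_left ih ht0
    refine le_trans (le_of_eq ?_) (le_trans (add_le_add_left h3 _) h2)
    push_cast
    ring

/-- the values at a new edge are small -/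
lemma mass (hq : 2 ≤ q) (hμ : 2 * Real.sqrt q ≤ |μ|) (α β a b : ℕ → ℝ)
    (hα1 : α 1 = μ * α 0 - β 0) (hβ1 : β 1 = μ * β 0 - α 0)
    (hα : ∀ j, j + 2 ≤ ρ → α (j + 2) = μ * α (j + 1) - q * α j)
    (hβ : ∀ j, j + 2 ≤ ρ → β (j + 2) = μ * β (j + 1) - q * β j)
    (hca : ∀ j ≤ ρ, α j ^ 2 ≤ q ^ j * a j) (hcb : ∀ j ≤ ρ, β j ^ 2 ≤ q ^ j * b j) :
    (α 0 ^ 2 + β 0 ^ 2) * ((ρ : ℝ) + 1) ^ 3 ≤ 36 * ∑ j ∈ range (ρ + 1), (a j + b j) := by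
  have hq' : (2 : ℝ) ≤ q := by exact_mod_cast hq
  set t := Real.sqrt q with ht
  have ht2 : t ^ 2 = q := Real.sq_sqrt (by positivity)
  have ht0 : 0 < t := Real.sqrt_pos.2 (by linarith)
  have ht1 : (1414 : ℝ) / 1000 ≤ t := by
    rw [ht]; apply Real.le_sqrt_of_sq_le; norm_num; linarith
  have hinv : t⁻¹ ≤ 1000 / 1414 := by
    rw [inv_le_comm₀ ht0 (by norm_num)]
    norm_num
    linarith
  have hinv0 : 0 < t⁻¹ := inv_pos.2 ht0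
  set c := 1 - t⁻¹ with hc
  have hc1 : c ≤ 1 := by linarith
  have hc0 : (1 : ℝ) / 12 ≤ c ^ 2 := by
    have : (414 : ℝ) / 1414 ≤ c := by rw [hc]; linarith
    nlinarith
  have hcp : 0 ≤ c := by rw [hc]; linarith
  have key : ∀ j ≤ ρ, (α 0 ^ 2 + β 0 ^ 2) * (((j : ℝ) + 1) ^ 2 / 12) ≤ a j + b j := by
    intro j hj
    have g1 := grow (ρ := ρ) hq hμ (κ := 1) (by simp) (fun j => α j + β j)
      (by rw [hα1, hβ1]; ring)
      (fun j hj => by rw [hα j hj, hβ j hj]; ring) j hj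
    have g2 := grow (ρ := ρ) hq hμ (κ := -1) (by simp) (fun j => α j - β j)
      (by rw [hα1, hβ1]; ring)
      (fun j hj => by rw [hα j hj, hβ j hj]; ring) j hj
    rw [← ht] at g1 g2
    have hp : 0 ≤ 1 + c * (j : ℝ) := by positivity
    have hjj : c * ((j : ℝ) + 1) ≤ 1 + c * j := by nlinarith
    have hsq : ((j : ℝ) + 1) ^ 2 / 12 ≤ (1 + c * j) ^ 2 := by
      have h1 : (c * ((j : ℝ) + 1)) ^ 2 ≤ (1 + c * j) ^ 2 := by gcongr
      have h2 : ((j : ℝ) + 1) ^ 2 * (1 / 12) ≤ ((j : ℝ) + 1) ^ 2 * c ^ 2 := by gcongr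
      calc ((j : ℝ) + 1) ^ 2 / 12 = ((j : ℝ) + 1) ^ 2 * (1 / 12) := by ring
        _ ≤ _ := h2
        _ = (c * ((j : ℝ) + 1)) ^ 2 := by ring
        _ ≤ _ := h1
    have hqj : (t ^ j) ^ 2 = (q : ℝ) ^ j := by rw [← pow_mul, mul_comm, pow_mul, ht2]
    have s1 : (α 0 + β 0) ^ 2 * (q : ℝ) ^ j * (1 + c * j) ^ 2 ≤ (α j + β j) ^ 2 := by
      have h1 : (|α 0 + β 0| * t ^ j * (1 + c * j)) ^ 2 ≤ |α j + β j| ^ 2 := by
        gcongr
      rw [sq_abs, mul_pow, mul_pow, sq_abs, hqj] at h1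
      exact h1
    have s2 : (α 0 - β 0) ^ 2 * (q : ℝ) ^ j * (1 + c * j) ^ 2 ≤ (α j - β j) ^ 2 := by
      have h1 : (|α 0 - β 0| * t ^ j * (1 + c * j)) ^ 2 ≤ |α j - β j| ^ 2 := by
        gcongr
      rw [sq_abs, mul_pow, mul_pow, sq_abs, hqj] at h1
      exact h1
    have hqp : 0 < (q : ℝ) ^ j := by positivity
    have h3 : (q : ℝ) ^ j * ((α 0 ^ 2 + β 0 ^ 2) * (1 + c * j) ^ 2) ≤ (q : ℝ) ^ j * (a j + b j) := by
      have h4 := hca j hj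
      have h5 := hcb j hj
      nlinarith
    have h4 := le_of_mul_le_mul_left h3 hqp
    have h5 : (α 0 ^ 2 + β 0 ^ 2) * (((j : ℝ) + 1) ^ 2 / 12) ≤
        (α 0 ^ 2 + β 0 ^ 2) * (1 + c * j) ^ 2 := by gcongr
    linarith
  have hs : ∑ j ∈ range (ρ + 1), (α 0 ^ 2 + β 0 ^ 2) * (((j : ℝ) + 1) ^ 2 / 12) ≤
      ∑ j ∈ range (ρ + 1), (a j + b j) :=
    sum_le_sum fun j hj => key j (by rw [mem_range] at hj; omega)
  have hcube : ∀ n : ℕ, ((n : ℝ) + 1) ^ 3 ≤ 3 * ∑ j ∈ range (n + 1), ((j : ℝ) + 1) ^ 2 := by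
    intro n
    induction n with
    | zero => simp
    | succ n ih =>
      rw [sum_range_succ]
      push_cast
      have : (0 : ℝ) ≤ n := Nat.cast_nonneg n
      nlinarith
  have h6 : ∑ j ∈ range (ρ + 1), (α 0 ^ 2 + β 0 ^ 2) * (((j : ℝ) + 1) ^ 2 / 12) =
      (α 0 ^ 2 + β 0 ^ 2) * ((∑ j ∈ range (ρ + 1), ((j : ℝ) + 1) ^ 2) / 12) := by
    rw [← mul_sum, sum_div]
  rw [h6] at hs
  have h7 := hcube ρ
  have h8 : 0 ≤ α 0 ^ 2 + β 0 ^ 2 := by positivity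
  have h9 : (α 0 ^ 2 + β 0 ^ 2) * ((ρ : ℝ) + 1) ^ 3 ≤
      (α 0 ^ 2 + β 0 ^ 2) * (3 * ∑ j ∈ range (ρ + 1), ((j : ℝ) + 1) ^ 2) := by gcongr
  linarith

end Pool.Agent.helper42.PB
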