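import Mathlib
import Pool.Agent.helper99.TV.Growth

set_option autoImplicit false

/-!
# Planting a cycle in a regular graph, part 1: half-trees

`u` is a vertex, `h` a neighbour of `u`, the ball of radius `ρ + 1` around `u` is a tree.
`hA u h j` is the set of the vertices at distance `j` from `u` and `j + 1` from `h`.
-/

namespace Pool.Agent.helper42.PB

open Finset
open Pool.Agent.helper5.RG Pool.Agent.helper99.TV

variable {V : Type*} [Fintype V] [DecidableEq V] (G : SimpleGraph V) [DecidableRel G.Adj]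

/-- the levels of the half-tree of `u` away from `h` -/
noncomputable def hA (u h : V) (j : ℕ) : Finset V := univ.filter fun z => G.dist u z = j ∧ G.dist h z = j + 1

lemma mem_hA {u h z : V} {j : ℕ} : z ∈ hA G u h j ↔ G.dist u z = j ∧ G.dist h z = j + 1 := by
  simp [hA]

/-- in a tree ball the only neighbour which is not farther is the parent -/
lemma eq_par {u z w : V} (hW : W G u z = 0) (hzw : G.Adj z w) (hd : G.dist u w ≤ G.dist u z) :
    w = par G u z := by
  by_contra hne
  unfold W at hW
  rw [card_eq_zero, filter_eq_empty_iff] at hW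
  exact hW (mem_univ w) ⟨hzw, hd, hne⟩

lemma dist_ne {u z w : V} (hc : G.Connected) (hW : W G u z = 0) (hzw : G.Adj z w) :
    G.dist u w ≠ G.dist u z := by
  intro h
  have h1 := eq_par G hW hzw h.le
  by_cases hz : z = u
  · subst hz
    rw [SimpleGraph.dist_self] at h
    have := (hc.dist_eq_zero_iff).1 h
    exact hzw.ne this
  · have h2 := (par_spec G hc hz).2
    rw [← h1] at h2
    omega

variable {G} {q ρ : ℕ} {u h : V}

/-- the parent of a vertex of the half-tree -/
lemma par_mem (hc : G.Connected) (huh : G.Adj u h) {z : V} {j : ℕ} (hz : z ∈ hA G u h (j + 1)) :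
    par G u z ∈ hA G u h j := by
  rw [mem_hA] at hz ⊢
  have hzu : z ≠ u := by
    rintro rfl
    rw [SimpleGraph.dist_self] at hz
    omega
  obtain ⟨h1, h2⟩ := par_spec G hc hzu
  refine ⟨by omega, ?_⟩
  have h3 := dist_adj_le G hc h h1.symm
  have h4 : G.dist h (par G u z) ≤ G.dist h u + G.dist u (par G u z) := hc.dist_triangle
  have h5 : G.dist h u = 1 := SimpleGraph.dist_eq_one_iff_adj.2 huh.symm
  omega

/-- neighbours farther from `u` stay in the half-tree -/
lemma up_mem (hc : G.Connected) (huh : G.Adj u h) (hW : ∀ z, G.dist u z ≤ ρ + 1 → W G u z = 0)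
    {z w : V} {j : ℕ} (hj : j ≤ ρ) (hz : z ∈ hA G u h j) (hzw : G.Adj z w)
    (hw : G.dist u w = j + 1) (hwh : w ≠ h) : w ∈ hA G u h (j + 1) := by
  rw [mem_hA] at hz ⊢
  refine ⟨hw, ?_⟩
  have h5 : G.dist h u = 1 := SimpleGraph.dist_eq_one_iff_adj.2 huh.symm
  have h4 : G.dist h w ≤ G.dist h u + G.dist u w := hc.dist_triangle
  by_contra hne
  have h6 : G.dist h w ≤ j + 1 := by omega
  obtain ⟨h7, h8⟩ := par_spec G hc hwh
  set p := par G h w with hp
  have h9 : G.dist u p ≤ G.dist u h + G.dist h p := hc.dist_triangle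
  rw [SimpleGraph.dist_comm (u := u) (v := h)] at h9
  have hWw := hW w (by omega)
  have e1 := eq_par G hWw h7 (by omega)
  have e2 := eq_par G hWw hzw.symm (by omega)
  rw [e1, ← e2] at h8
  omega

/-- number of neighbours in a level of the half-tree -/
lemma half_count (hc : G.Connected) (hr : G.IsRegularOfDegree (q + 1)) (huh : G.Adj u h)
    (hW : ∀ z, G.dist u z ≤ ρ + 1 → W G u z = 0) {j : ℕ} (hj : j + 1 ≤ ρ) (w : V) :
    ((hA G u h (j + 1)).filter fun z => G.Adj z w).card =
      (if w ∈ hA G u h (j + 2) then 1 else 0) + (if w ∈ hA G u h j then q else 0) := by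
  classical
  have huh1 : G.dist u h = 1 := SimpleGraph.dist_eq_one_iff_adj.2 huh
  by_cases h1 : w ∈ hA G u h (j + 2)
  · have h2 : w ∉ hA G u h j := by
      rw [mem_hA] at h1 ⊢
      omega
    rw [if_pos h1, if_neg h2, add_zero, card_eq_one]
    refine ⟨par G u w, ?_⟩
    have hwu : w ≠ u := by
      rintro rfl
      rw [mem_hA, SimpleGraph.dist_self] at h1
      omega
    obtain ⟨h3, h4⟩ := par_spec G hc hwu
    have h1' := (mem_hA G).1 h1
    ext z
    simp only [mem_filter, mem_singleton]
    constructor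
    · rintro ⟨h5, h6⟩
      rw [mem_hA] at h5
      exact eq_par G (hW w (by omega)) h6.symm (by omega)
    · rintro rfl
      exact ⟨par_mem hc huh h1, h3.symm⟩
  by_cases h2 : w ∈ hA G u h j
  · rw [if_neg h1, if_pos h2, zero_add]
    have h2' := (mem_hA G).1 h2
    -- the remaining neighbour of `w`
    obtain ⟨x, hx1, hx2, hx3⟩ : ∃ x, G.Adj w x ∧ x ∉ hA G u h (j + 1) ∧
        ∀ z, G.Adj w z → z ≠ x → G.dist u z = j + 1 ∧ z ≠ h := by
      by_cases hwu : w = u
      · subst hwu
        rw [SimpleGraph.dist_self] at h2'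
        refine ⟨h, huh, ?_, fun z hz hzh => ⟨?_, hzh⟩⟩
        · rw [mem_hA, SimpleGraph.dist_self]; omega
        · rw [SimpleGraph.dist_eq_one_iff_adj.2 hz]; omega
      · obtain ⟨h3, h4⟩ := par_spec G hc hwu
        refine ⟨par G u w, h3, ?_, fun z hz hzp => ?_⟩
        · rw [mem_hA]; omega
        · have h5 := dist_adj_le G hc u hz
          have h6 : ¬ G.dist u z ≤ G.dist u w := fun h7 =>
            hzp (eq_par G (hW w (by omega)) hz h7)
          refine ⟨by omega, ?_⟩
          rintro rfl
          have h7 : G.dist u w ≠ 0 := fun h8 => hwu ((hc.dist_eq_zero_iff).1 h8).symm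
          omega
    have h3 : G.neighborFinset w = insert x ((hA G u h (j + 1)).filter fun z => G.Adj z w) := by
      ext z
      simp only [SimpleGraph.mem_neighborFinset, mem_insert, mem_filter]
      constructor
      · intro hz
        by_cases hzx : z = x
        · exact Or.inl hzx
        · obtain ⟨h4, h5⟩ := hx3 z hz hzx
          exact Or.inr ⟨up_mem hc huh hW (by omega) h2 hz h4 h5, hz.symm⟩
      · rintro (rfl | ⟨-, h4⟩)
        · exact hx1
        · exact h4.symm
    have h4 : (G.neighborFinset w).card = q + 1 := by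
      rw [SimpleGraph.card_neighborFinset_eq_degree]; exact hr w
    rw [h3, card_insert_of_notMem (fun h5 => hx2 (mem_filter.1 h5).1)] at h4
    omega
  · rw [if_neg h1, if_neg h2, add_zero, card_eq_zero, filter_eq_empty_iff]
    intro z hz hzw
    have hz' := (mem_hA G).1 hz
    have h3 := dist_adj_le G hc u hzw
    have h3' := dist_adj_le G hc u hzw.symm
    have h4 := dist_ne G hc (hW z (by omega)) hzw
    rcases Nat.lt_or_ge (G.dist u w) (j + 1) with h5 | h5
    · have h6 := eq_par G (hW z (by omega)) hzw (by omega)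
      exact h2 (h6 ▸ par_mem hc huh hz)
    · refine h1 (up_mem hc huh hW hj hz hzw (by omega) ?_)
      rintro rfl
      omega

/-- recursion for the sums over the levels -/
theorem half_sum (hc : G.Connected) (hr : G.IsRegularOfDegree (q + 1)) (huh : G.Adj u h)
    (hW : ∀ z, G.dist u z ≤ ρ + 1 → W G u z = 0) {j : ℕ} (hj : j + 1 ≤ ρ) (f : V → ℝ) :
    ∑ z ∈ hA G u h (j + 1), ∑ w ∈ G.neighborFinset z, f w =
      ∑ w ∈ hA G u h (j + 2), f w + q * ∑ w ∈ hA G u h j, f w := by
  classical
  have h1 : ∀ z, ∑ w ∈ G.neighborFinset z, f w = ∑ w, if G.Adj z w then f w else 0 := by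
    intro z
    rw [← sum_filter]
    apply sum_congr _ (fun _ _ => rfl)
    ext w; simp
  simp only [h1]
  rw [sum_comm]
  have h2 : ∀ w, ∑ z ∈ hA G u h (j + 1), (if G.Adj z w then f w else 0) =
      ((if w ∈ hA G u h (j + 2) then f w else 0) + (if w ∈ hA G u h j then q * f w else 0)) := by
    intro w
    rw [← sum_filter, sum_const, half_count hc hr huh hW hj w, nsmul_eq_mul]
    push_cast
    split_ifs <;> ring
  simp only [h2]
  rw [sum_add_distrib, ← sum_filter, ← sum_filter, mul_sum]
  simp

theorem half_zero (hc : G.Connected) (huh : G.Adj u h)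
    (hW : ∀ z, G.dist u z ≤ ρ + 1 → W G u z = 0) (f : V → ℝ) :
    ∑ w ∈ G.neighborFinset u, f w = f h + ∑ w ∈ hA G u h 1, f w := by
  classical
  have h1 : G.neighborFinset u = insert h (hA G u h 1) := by
    ext w
    simp only [SimpleGraph.mem_neighborFinset, mem_insert]
    constructor
    · intro hw
      by_cases hwh : w = h
      · exact Or.inl hwh
      · right
        refine up_mem hc huh hW (j := 0) (by omega) ?_ hw
          (SimpleGraph.dist_eq_one_iff_adj.2 hw) hwh
        rw [mem_hA, SimpleGraph.dist_self, SimpleGraph.dist_eq_one_iff_adj.2 huh.symm]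
        exact ⟨rfl, rfl⟩
    · rintro (rfl | hw)
      · exact huh
      · exact SimpleGraph.dist_eq_one_iff_adj.1 ((mem_hA G).1 hw).1
  rw [h1, sum_insert]
  rw [mem_hA, SimpleGraph.dist_self]
  omega

lemma hA_zero (hc : G.Connected) (huh : G.Adj u h) : hA G u h 0 = {u} := by
  ext z
  rw [mem_hA, mem_singleton]
  constructor
  · rintro ⟨h1, -⟩
    exact ((hc.dist_eq_zero_iff).1 h1).symm
  · rintro rfl
    exact ⟨SimpleGraph.dist_self, SimpleGraph.dist_eq_one_iff_adj.2 huh.symm⟩

/-- sizes of the levels -/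
theorem half_card (hc : G.Connected) (hr : G.IsRegularOfDegree (q + 1)) (huh : G.Adj u h)
    (hW : ∀ z, G.dist u z ≤ ρ + 1 → W G u z = 0) (j : ℕ) (hj : j ≤ ρ) :
    ((hA G u h j).card : ℝ) = q ^ j ∧ ((hA G u h (j + 1)).card : ℝ) = q ^ (j + 1) := by
  have hd : ∀ z, (∑ w ∈ G.neighborFinset z, (1 : ℝ)) = q + 1 := by
    intro z
    rw [sum_const, SimpleGraph.card_neighborFinset_eq_degree, hr z]
    simp
  induction j with
  | zero =>
    have h1 := half_zero hc huh hW (fun _ => (1 : ℝ))
    simp only [hd, sum_const, nsmul_eq_mul, mul_one] at h1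
    rw [hA_zero hc huh]
    refine ⟨by simp, ?_⟩
    simp only [zero_add, pow_one]
    linarith
  | succ j ih =>
    obtain ⟨h1, h2⟩ := ih (by omega)
    refine ⟨h2, ?_⟩
    have h3 := half_sum hc hr huh hW (by omega : j + 1 ≤ ρ) (fun _ => (1 : ℝ))
    simp only [hd, sum_const, nsmul_eq_mul, mul_one] at h3
    rw [h2, h1] at h3
    have h4 : (q : ℝ) ^ (j + 1 + 1) = q ^ (j + 1) * q := by ring
    have h5 : (q : ℝ) * q ^ j = q ^ (j + 1) := by ring
    show ((hA G u h (j + 2)).card : ℝ) = _
    rw [h4]
    linarith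

end Pool.Agent.helper42.PB
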