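import Mathlib
import Pool.Agent.helper5.RG.Bas
import Pool.Agent.helper42.PB.Half
import Pool.Agent.helper42.PB.Grow

set_option autoImplicit false

/-!
# Planting a cycle in a regular graph, part 3: switches

The places of the switches are indexed by `I`; `e i` is a vertex, `e (h i)` its old neighbour,
`e (g i)` its new neighbour.
-/

namespace Pool.Agent.helper42.PB

open Finset
open Pool.Agent.helper5.RG Pool.Agent.helper99.TV

variable {V : Type*} [Fintype V] [DecidableEq V] (G : SimpleGraph V) [DecidableRel G.Adj]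
  {I : Type*} [Fintype I] [DecidableEq I]

/-- data of a family of switches -/
structure Sw (e : I → V) (h g : I → I) : Prop where
  inj : Function.Injective e
  hh : ∀ i, h (h i) = i
  gg : ∀ i, g (g i) = i
  gh : ∀ i, g i ≠ h i
  gi : ∀ i, g i ≠ i
  adj : ∀ i, G.Adj (e i) (e (h i))
  nadj : ∀ i, ¬ G.Adj (e i) (e (g i))

variable {G} {e : I → V} {h g : I → I}

/-- the switched graph -/
def swg (hS : Sw G e h g) : SimpleGraph V where
  Adj a b := (G.Adj a b ∧ ¬ ∃ i, e i = a ∧ e (h i) = b) ∨ ∃ i, e i = a ∧ e (g i) = b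
  symm := by
    constructor
    rintro a b (⟨h1, h2⟩ | ⟨i, h1, h2⟩)
    · refine Or.inl ⟨h1.symm, ?_⟩
      rintro ⟨i, h3, h4⟩
      exact h2 ⟨h i, h4, by rw [hS.hh]; exact h3⟩
    · exact Or.inr ⟨g i, h2, by rw [hS.gg]; exact h1⟩
  loopless := by
    constructor
    rintro a (⟨h1, -⟩ | ⟨i, h1, h2⟩)
    · exact h1.ne rfl
    · exact hS.gi i (hS.inj (by rw [h1, h2]))

noncomputable instance (hS : Sw G e h g) : DecidableRel (swg hS).Adj := Classical.decRel _

lemma swg_adj (hS : Sw G e h g) (a b : V) : (swg hS).Adj a b ↔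
    (G.Adj a b ∧ ¬ ∃ i, e i = a ∧ e (h i) = b) ∨ ∃ i, e i = a ∧ e (g i) = b := Iff.rfl

/-- neighbours of a vertex which is not switched -/
lemma nbr_off (hS : Sw G e h g) {a : V} (ha : ∀ i, e i ≠ a) :
    (swg hS).neighborFinset a = G.neighborFinset a := by
  ext b
  simp only [SimpleGraph.mem_neighborFinset, swg_adj]
  constructor
  · rintro (⟨h1, -⟩ | ⟨i, h1, -⟩)
    · exact h1
    · exact absurd h1 (ha i)
  · intro h1
    exact Or.inl ⟨h1, fun ⟨i, h2, _⟩ => ha i h2⟩

/-- neighbour sums at a switched vertex -/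
lemma sum_on (hS : Sw G e h g) (i : I) (f : V → ℝ) :
    ∑ b ∈ (swg hS).neighborFinset (e i), f b =
      ∑ b ∈ G.neighborFinset (e i), f b + (f (e (g i)) - f (e (h i))) := by
  have h1 : (swg hS).neighborFinset (e i) =
      insert (e (g i)) ((G.neighborFinset (e i)).erase (e (h i))) := by
    ext b
    simp only [SimpleGraph.mem_neighborFinset, swg_adj, mem_insert, mem_erase]
    constructor
    · rintro (⟨h2, h3⟩ | ⟨k, h2, h3⟩)
      · right
        refine ⟨?_, h2⟩
        rintro rfl
        exact h3 ⟨i, rfl, rfl⟩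
      · left
        rw [← h3, hS.inj h2]
    · rintro (rfl | ⟨h2, h3⟩)
      · exact Or.inr ⟨i, rfl, rfl⟩
      · refine Or.inl ⟨h3, ?_⟩
        rintro ⟨k, h4, h5⟩
        rw [hS.inj h4] at h5
        exact h2 h5.symm
  have h2 : e (g i) ∉ (G.neighborFinset (e i)).erase (e (h i)) := by
    rw [mem_erase, SimpleGraph.mem_neighborFinset]
    exact fun h3 => hS.nadj i h3.2
  have h3 : e (h i) ∈ G.neighborFinset (e i) := by
    rw [SimpleGraph.mem_neighborFinset]; exact hS.adj i
  rw [h1, sum_insert h2]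
  have h4 := sum_erase_add (G.neighborFinset (e i)) f h3
  linarith

/-- neighbour sums in the switched graph -/
lemma sum_swg (hS : Sw G e h g) (a : V) (f : V → ℝ) :
    ∑ b ∈ (swg hS).neighborFinset a, f b = ∑ b ∈ G.neighborFinset a, f b +
      ∑ i, if e i = a then f (e (g i)) - f (e (h i)) else 0 := by
  by_cases ha : ∃ i, e i = a
  · obtain ⟨i, rfl⟩ := ha
    rw [sum_on hS i f]
    congr 1
    rw [sum_eq_single i]
    · simp
    · intro k _ hk
      rw [if_neg]
      exact fun h1 => hk (hS.inj h1)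
    · intro h1; exact absurd (mem_univ i) h1
  · push Not at ha
    rw [nbr_off hS ha]
    have : ∑ i, (if e i = a then f (e (g i)) - f (e (h i)) else 0) = 0 :=
      sum_eq_zero fun i _ => by rw [if_neg (ha i)]
    rw [this, add_zero]

lemma swg_regular (hS : Sw G e h g) {d : ℕ} (hr : G.IsRegularOfDegree d) :
    (swg hS).IsRegularOfDegree d := by
  intro a
  have h1 := sum_swg hS a (fun _ => (1 : ℝ))
  simp only [sub_self, ite_self, sum_const_zero, add_zero, sum_const, nsmul_eq_mul, mul_one] at h1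
  rw [SimpleGraph.card_neighborFinset_eq_degree, SimpleGraph.card_neighborFinset_eq_degree,
    hr a] at h1
  exact_mod_cast h1

/-- the quadratic form -/
lemma quad_swg (hS : Sw G e h g) (f : V → ℝ) :
    ∑ a, f a * ∑ b ∈ (swg hS).neighborFinset a, f b =
      ∑ a, f a * ∑ b ∈ G.neighborFinset a, f b +
        ∑ i, f (e i) * (f (e (g i)) - f (e (h i))) := by
  simp only [sum_swg hS, mul_add, sum_add_distrib, mul_sum]
  congr 1
  rw [sum_comm]
  apply sum_congr rfl
  intro i _
  rw [sum_eq_single (e i)]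
  · simp
  · intro a _ ha
    rw [if_neg (fun h1 => ha h1.symm), mul_zero]
  · intro h1; exact absurd (mem_univ _) h1

/-- bound for the change of the quadratic form -/
lemma change_le (hS : Sw G e h g) (f : V → ℝ) :
    |∑ i, f (e i) * (f (e (g i)) - f (e (h i)))| ≤ 2 * ∑ i, f (e i) ^ 2 := by
  have hg1 : ∑ i, f (e (g i)) ^ 2 = ∑ i, f (e i) ^ 2 :=
    Equiv.sum_comp (Function.Involutive.toPerm g hS.gg) (fun i => f (e i) ^ 2)
  have hh1 : ∑ i, f (e (h i)) ^ 2 = ∑ i, f (e i) ^ 2 :=
    Equiv.sum_comp (Function.Involutive.toPerm h hS.hh) (fun i => f (e i) ^ 2)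
  have h1 : ∀ i, |f (e i) * (f (e (g i)) - f (e (h i)))| ≤
      f (e i) ^ 2 + (f (e (g i)) ^ 2 + f (e (h i)) ^ 2) / 2 := by
    intro i
    rw [abs_le]
    constructor <;> nlinarith [sq_nonneg (f (e i) - f (e (g i))), sq_nonneg (f (e i) + f (e (g i))),
      sq_nonneg (f (e i) - f (e (h i))), sq_nonneg (f (e i) + f (e (h i)))]
  refine (abs_sum_le_sum_abs _ _).trans ((sum_le_sum fun i _ => h1 i).trans (le_of_eq ?_))
  rw [sum_add_distrib, ← sum_div, sum_add_distrib, hg1, hh1]
  ring

end Pool.Agent.helper42.PB
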