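import Mathlib
import Pool.Agent.helper42.PB.Sw

set_option autoImplicit false

/-!
# Planting a cycle in a regular graph, part 4: the spectrum of the switched graph
-/

namespace Pool.Agent.helper42.PB

open Finset Matrix
open Pool.Agent.helper5.RG Pool.Agent.helper99.TV

variable {V : Type*} [Fintype V] [DecidableEq V] {G : SimpleGraph V} [DecidableRel G.Adj]
  {I : Type*} [Fintype I] [DecidableEq I] {e : I → V} {h g : I → I} {q ρ : ℕ}

/-- symmetry of the adjacency form -/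
lemma symm_sum (G' : SimpleGraph V) [DecidableRel G'.Adj] (x y : V → ℝ) :
    ∑ a, x a * ∑ b ∈ G'.neighborFinset a, y b = ∑ a, y a * ∑ b ∈ G'.neighborFinset a, x b := by
  have h1 : ∀ (x y : V → ℝ), ∑ a, x a * ∑ b ∈ G'.neighborFinset a, y b =
      ∑ a, ∑ b, if G'.Adj a b then x a * y b else 0 := by
    intro x y
    apply sum_congr rfl
    intro a _
    rw [mul_sum, ← sum_filter]
    apply sum_congr _ (fun _ _ => rfl)
    ext b; simp
  rw [h1 x y, h1 y x, sum_comm]
  apply sum_congr rfl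
  intro a _
  apply sum_congr rfl
  intro b _
  by_cases hab : G'.Adj a b
  · rw [if_pos hab, if_pos hab.symm]; ring
  · rw [if_neg hab, if_neg (fun h2 => hab h2.symm)]

/-- eigenvectors of the eigenvalue `-d` alternate -/
lemma neg_of_eig {d : ℕ} (hr : G.IsRegularOfDegree d) {x : V → ℝ}
    (hx : ∀ a, ∑ b ∈ G.neighborFinset a, x b = -(d : ℝ) * x a) {a b : V} (hab : G.Adj a b) :
    x a = - x b := by
  have h1 : ∑ i, ∑ j ∈ G.neighborFinset i, (x i + x j) ^ 2 = 0 := by
    have h2 : ∀ i, ∑ j ∈ G.neighborFinset i, (x i + x j) ^ 2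
        = (d : ℝ) * x i ^ 2 + 2 * x i * (∑ j ∈ G.neighborFinset i, x j)
          + 1 * ∑ j ∈ G.neighborFinset i, x j ^ 2 := by
      intro i
      have : ∀ j, (x i + x j) ^ 2 = x i ^ 2 + 2 * x i * x j + x j ^ 2 := fun j => by ring
      simp only [this]
      rw [sum_add_distrib, sum_add_distrib, sum_const, ← mul_sum,
        SimpleGraph.card_neighborFinset_eq_degree, hr.degree_eq i, nsmul_eq_mul, one_mul]
    have h3 := symm_sum G (fun _ => (1 : ℝ)) (fun j => x j ^ 2)
    have h4 : ∀ i, ∑ _j ∈ G.neighborFinset i, (1 : ℝ) = d := by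
      intro i
      rw [sum_const, SimpleGraph.card_neighborFinset_eq_degree, hr.degree_eq i]; simp
    simp only [h2, sum_add_distrib, hx]
    rw [h3]
    simp only [h4, ← mul_sum]
    rw [← sum_mul]
    have h5 : ∑ i, 2 * x i * (-(d : ℝ) * x i) = -2 * d * ∑ i, x i ^ 2 := by
      rw [mul_sum]
      apply sum_congr rfl
      intro i _
      ring
    rw [h5]
    ring
  rw [sum_eq_zero_iff_of_nonneg (fun i _ => sum_nonneg fun j _ => sq_nonneg _)] at h1
  have h2 := h1 a (mem_univ _)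
  rw [sum_eq_zero_iff_of_nonneg (fun j _ => sq_nonneg _)] at h2
  have h3 := h2 b (by simpa using hab)
  have h4 : x a + x b = 0 := by simpa using h3
  linarith

/-- the hypotheses on the places -/
structure Pl (G : SimpleGraph V) [DecidableRel G.Adj] (e : I → V) (h : I → I) (ρ : ℕ) : Prop where
  tree : ∀ i z, G.dist (e i) z ≤ ρ + 1 → W G (e i) z = 0
  sep : ∀ i k, k ≠ i → k ≠ h i → 2 * ρ < G.dist (e i) (e k)

lemma not_place (hS : Sw G e h g) (hP : Pl G e h ρ) {i : I} {j : ℕ} (hj : j + 1 ≤ ρ) {z : V}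
    (hz : z ∈ hA G (e i) (e (h i)) (j + 1)) (k : I) : e k ≠ z := by
  rintro rfl
  rw [mem_hA] at hz
  obtain ⟨h1, h2⟩ := hz
  by_cases hk : k = i
  · subst hk
    rw [SimpleGraph.dist_self] at h1
    omega
  by_cases hk' : k = h i
  · subst hk'
    rw [SimpleGraph.dist_self] at h2
    omega
  · have := hP.sep i k hk hk'
    omega

/-- the part of the vertex set used at a place -/
noncomputable def reg (G : SimpleGraph V) (e : I → V) (h : I → I) (ρ : ℕ) (i : I) : Finset V :=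
  univ.filter fun z => G.dist (e i) z ≤ ρ ∧ G.dist (e (h i)) z = G.dist (e i) z + 1

lemma reg_disj (hc : G.Connected) (hS : Sw G e h g) (hP : Pl G e h ρ) {i k : I} (hik : i ≠ k) :
    Disjoint (reg G e h ρ i) (reg G e h ρ k) := by
  rw [disjoint_left]
  intro z hz hz'
  simp only [reg, mem_filter, mem_univ, true_and] at hz hz'
  by_cases hk : k = h i
  · subst hk
    rw [hS.hh] at hz'
    omega
  · have h1 := hP.sep i k (fun h2 => hik h2.symm) hk
    have h2 : G.dist (e i) (e k) ≤ G.dist (e i) z + G.dist z (e k) := hc.dist_triangle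
    rw [SimpleGraph.dist_comm (u := z) (v := e k)] at h2
    omega

lemma sum_levels (i : I) (φ : V → ℝ) :
    ∑ j ∈ range (ρ + 1), ∑ z ∈ hA G (e i) (e (h i)) j, φ z = ∑ z ∈ reg G e h ρ i, φ z := by
  rw [← sum_fiberwise_of_maps_to (s := reg G e h ρ i) (t := range (ρ + 1))
    (g := fun z => G.dist (e i) z)]
  · apply sum_congr rfl
    intro j hj
    rw [mem_range] at hj
    apply sum_congr _ (fun _ _ => rfl)
    ext z
    simp only [mem_hA, reg, mem_filter, mem_univ, true_and]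
    omega
  · intro z hz
    simp only [reg, mem_filter, mem_univ, true_and] at hz
    rw [mem_range]
    omega

lemma sum_reg_le (hc : G.Connected) (hS : Sw G e h g) (hP : Pl G e h ρ) (φ : V → ℝ)
    (hφ : ∀ z, 0 ≤ φ z) : ∑ i, ∑ z ∈ reg G e h ρ i, φ z ≤ ∑ z, φ z := by
  rw [← sum_biUnion (fun i _ k _ hik => reg_disj hc hS hP hik)]
  exact sum_le_sum_of_subset_of_nonneg (subset_univ _) fun z _ _ => hφ z

/-- eigenfunctions are small at the places -/
theorem mass_le (hq : 2 ≤ q) (hc : G.Connected) (hr : G.IsRegularOfDegree (q + 1))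
    (hS : Sw G e h g) (hP : Pl G e h ρ) {μ : ℝ} (hμ : 2 * Real.sqrt q ≤ |μ|) {f : V → ℝ}
    (hf : ∀ a, ∑ b ∈ (swg hS).neighborFinset a, f b = μ * f a) :
    (∑ i, f (e i) ^ 2) * ((ρ : ℝ) + 1) ^ 3 ≤ 36 * ∑ a, f a ^ 2 := by
  set α : I → ℕ → ℝ := fun i j => ∑ z ∈ hA G (e i) (e (h i)) j, f z with hα
  set m : I → ℕ → ℝ := fun i j => ∑ z ∈ hA G (e i) (e (h i)) j, f z ^ 2 with hm
  have h0 : ∀ i, α i 0 = f (e i) := by
    intro i
    simp only [hα]
    rw [hA_zero hc (hS.adj i), sum_singleton]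
  have h1 : ∀ i, α i 1 = μ * α i 0 - α (g i) 0 := by
    intro i
    have e1 := hf (e i)
    rw [sum_on hS i f, half_zero hc (hS.adj i) (hP.tree i) f] at e1
    rw [h0, h0]
    simp only [hα]
    linarith
  have h2 : ∀ i j, j + 2 ≤ ρ → α i (j + 2) = μ * α i (j + 1) - q * α i j := by
    intro i j hj
    have e1 := half_sum hc hr (hS.adj i) (hP.tree i) (by omega : j + 1 ≤ ρ) f
    have e2 : ∑ z ∈ hA G (e i) (e (h i)) (j + 1), ∑ w ∈ G.neighborFinset z, f w =
        ∑ z ∈ hA G (e i) (e (h i)) (j + 1), μ * f z := by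
      apply sum_congr rfl
      intro z hz
      rw [← hf z, nbr_off hS (not_place hS hP (by omega) hz)]
    rw [e2, ← mul_sum] at e1
    simp only [hα]
    linarith
  have h3 : ∀ i j, j ≤ ρ → α i j ^ 2 ≤ q ^ j * m i j := by
    intro i j hj
    have e1 := sq_sum_le_card_mul_sum_sq (s := hA G (e i) (e (h i)) j) (f := f)
    rw [(half_card hc hr (hS.adj i) (hP.tree i) j hj).1] at e1
    exact e1
  have h4 : ∀ i, (f (e i) ^ 2 + f (e (g i)) ^ 2) * ((ρ : ℝ) + 1) ^ 3 ≤
      36 * (∑ z ∈ reg G e h ρ i, f z ^ 2 + ∑ z ∈ reg G e h ρ (g i), f z ^ 2) := by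
    intro i
    have e1 := mass (ρ := ρ) hq hμ (α i) (α (g i)) (m i) (m (g i)) (h1 i)
      (by have := h1 (g i); rw [hS.gg] at this; exact this) (h2 i) (h2 (g i)) (h3 i) (h3 (g i))
    rw [h0, h0, sum_add_distrib] at e1
    simp only [hm] at e1
    rw [sum_levels i (fun z => f z ^ 2), sum_levels (g i) (fun z => f z ^ 2)] at e1
    exact e1
  have h5 := sum_le_sum fun i (_ : i ∈ (univ : Finset I)) => h4 i
  rw [← sum_mul, ← mul_sum, sum_add_distrib, sum_add_distrib] at h5
  have hg1 : ∑ i, f (e (g i)) ^ 2 = ∑ i, f (e i) ^ 2 :=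
    Equiv.sum_comp (Function.Involutive.toPerm g hS.gg) (fun i => f (e i) ^ 2)
  have hg2 : ∑ i, ∑ z ∈ reg G e h ρ (g i), f z ^ 2 = ∑ i, ∑ z ∈ reg G e h ρ i, f z ^ 2 :=
    Equiv.sum_comp (Function.Involutive.toPerm g hS.gg) (fun i => ∑ z ∈ reg G e h ρ i, f z ^ 2)
  rw [hg1, hg2] at h5
  have h6 := sum_reg_le hc hS hP (fun z => f z ^ 2) (fun z => sq_nonneg _)
  linarith

/-- the main estimate -/
theorem eig_le (hq : 2 ≤ q) (hc : G.Connected) (hr : G.IsRegularOfDegree (q + 1))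
    (hS : Sw G e h g) (hP : Pl G e h ρ) {L : ℝ} (hs : Spec G (q + 1) L)
    (hbip : ∀ χ : V → ℝ, (∀ a b, G.Adj a b → χ a = - χ b) → ∀ i, χ (e (g i)) = χ (e (h i)))
    {μ : ℝ} (hμ : 2 * Real.sqrt q ≤ |μ|) (hμd : μ ≠ -((q + 1 : ℕ) : ℝ)) {f : V → ℝ} (hf0 : f ≠ 0)
    (hsum : ∑ a, f a = 0) (hf : ∀ a, ∑ b ∈ (swg hS).neighborFinset a, f b = μ * f a) :
    |μ| ≤ L + 72 / ((ρ : ℝ) + 1) ^ 3 := by
  obtain ⟨u, l, hu, hpar, hquad, hl, -, -, hconst⟩ := exists_basis G hc hr hs
  have hu' : ∀ i a, ∑ b ∈ G.neighborFinset a, u i b = l i * u i a := by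
    intro i a
    have := congrFun (hu i) a
    rw [SimpleGraph.adjMatrix_mulVec_apply] at this
    simpa using this
  -- the trivial eigenvectors are orthogonal to `f`
  have hz : ∀ i, |l i| = ((q + 1 : ℕ) : ℝ) → u i ⬝ᵥ f = 0 := by
    intro i hi
    rcases abs_choice (l i) with h1 | h1
    · have h2 := hconst i (by rw [← hi, h1])
      by_cases hne : Nonempty V
      · obtain ⟨a0⟩ := hne
        unfold dotProduct
        have : ∀ a, u i a * f a = u i a0 * f a := fun a => by rw [h2 a a0]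
        simp only [this]
        rw [← mul_sum, hsum, mul_zero]
      · have : IsEmpty V := not_nonempty_iff.1 hne
        simp [dotProduct]
    · have h2 : l i = -((q + 1 : ℕ) : ℝ) := by rw [← hi, h1]; ring
      have h3 : ∀ a b, G.Adj a b → u i a = - u i b := fun a b hab =>
        neg_of_eig hr (x := u i) (fun a => by rw [hu' i a, h2]) hab
      have h4 := hbip (u i) h3
      have h5 : ∀ a, ∑ b ∈ (swg hS).neighborFinset a, u i b = l i * u i a := by
        intro a
        rw [sum_swg hS, hu' i a]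
        have : ∑ k, (if e k = a then u i (e (g k)) - u i (e (h k)) else 0) = 0 :=
          sum_eq_zero fun k _ => by rw [h4 k, sub_self, ite_self]
        rw [this, add_zero]
      have h6 := symm_sum (swg hS) (u i) f
      simp only [hf, h5] at h6
      have h7 : ∑ a, u i a * (μ * f a) = μ * (u i ⬝ᵥ f) := by
        unfold dotProduct
        rw [mul_sum]
        exact sum_congr rfl fun a _ => by ring
      have h8 : ∑ a, f a * (l i * u i a) = l i * (u i ⬝ᵥ f) := by
        unfold dotProduct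
        rw [mul_sum]
        exact sum_congr rfl fun a _ => by ring
      rw [h7, h8] at h6
      have h9 : (μ - l i) * (u i ⬝ᵥ f) = 0 := by linarith
      rcases mul_eq_zero.1 h9 with h10 | h10
      · exfalso
        apply hμd
        rw [← h2]; linarith
      · exact h10
  have hff : f ⬝ᵥ f = ∑ a, f a ^ 2 := by
    unfold dotProduct
    exact sum_congr rfl fun a _ => by ring
  have hAf : f ⬝ᵥ (G.adjMatrix ℝ).mulVec f = ∑ a, f a * ∑ b ∈ G.neighborFinset a, f b := by
    unfold dotProduct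
    exact sum_congr rfl fun a _ => by rw [SimpleGraph.adjMatrix_mulVec_apply]
  have hA : |∑ a, f a * ∑ b ∈ G.neighborFinset a, f b| ≤ L * ∑ a, f a ^ 2 := by
    rw [← hAf, hquad, ← hff, ← hpar f, mul_sum]
    refine (abs_sum_le_sum_abs _ _).trans (sum_le_sum fun i _ => ?_)
    rcases hl i with h1 | h1
    · rw [hz i h1]; simp
    · rw [abs_mul, abs_of_nonneg (sq_nonneg (u i ⬝ᵥ f))]
      exact mul_le_mul_of_nonneg_right h1 (sq_nonneg _)
  have hpos : 0 < ∑ a, f a ^ 2 := by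
    obtain ⟨a, ha⟩ := Function.ne_iff.1 hf0
    apply sum_pos' (fun a _ => sq_nonneg _)
    exact ⟨a, mem_univ _, by
      have : f a ≠ 0 := ha
      positivity⟩
  have h1 := quad_swg hS f
  simp only [hf] at h1
  have h2 : ∑ a, f a * (μ * f a) = μ * ∑ a, f a ^ 2 := by
    rw [mul_sum]
    exact sum_congr rfl fun a _ => by ring
  rw [h2] at h1
  have h3 := change_le hS f
  have h4 := mass_le hq hc hr hS hP hμ hf
  have hρ : (0 : ℝ) < ((ρ : ℝ) + 1) ^ 3 := by positivity
  have h5 : ∑ i, f (e i) ^ 2 ≤ 36 / ((ρ : ℝ) + 1) ^ 3 * ∑ a, f a ^ 2 := by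
    rw [div_mul_eq_mul_div, le_div_iff₀ hρ]
    exact h4
  have h6 : |μ| * ∑ a, f a ^ 2 ≤ (L + 72 / ((ρ : ℝ) + 1) ^ 3) * ∑ a, f a ^ 2 := by
    have e1 : |μ| * ∑ a, f a ^ 2 = |μ * ∑ a, f a ^ 2| := by
      rw [abs_mul, abs_of_pos hpos]
    rw [e1, h1]
    refine (abs_add_le _ _).trans ?_
    have e2 : (L + 72 / ((ρ : ℝ) + 1) ^ 3) * ∑ a, f a ^ 2 =
        L * ∑ a, f a ^ 2 + 2 * (36 / ((ρ : ℝ) + 1) ^ 3 * ∑ a, f a ^ 2) := by ring
    rw [e2]
    linarith
  exact le_of_mul_le_mul_right h6 hpos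

end Pool.Agent.helper42.PB
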