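import Mathlib
import Pool.Agent.helper42.PB.Bd

set_option autoImplicit false

/-!
# Planting a cycle in a regular graph: the number of exceptional eigenvalues
-/

namespace Pool.Agent.helper42.PB

open Finset Matrix
open Pool.Agent.helper5.RG Pool.Agent.helper99.TV

variable {V : Type*} [Fintype V] [DecidableEq V] {G : SimpleGraph V} [DecidableRel G.Adj]
  {I : Type*} [Fintype I] [DecidableEq I] {e : I → V} {h g : I → I} {q : ℕ}

/-- trivial eigenvectors stay eigenvectors -/
lemma triv_eig (hc : G.Connected) (hr : G.IsRegularOfDegree (q + 1)) (hS : Sw G e h g)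
    (hbip : ∀ χ : V → ℝ, (∀ a b, G.Adj a b → χ a = - χ b) → ∀ i, χ (e (g i)) = χ (e (h i)))
    {s : ℝ} (hs : s = 1 ∨ s = -1) {w : V → ℝ}
    (hw : (G.adjMatrix ℝ).mulVec w = (s * ((q + 1 : ℕ) : ℝ)) • w) (a : V) :
    ∑ b ∈ (swg hS).neighborFinset a, w b = s * ((q + 1 : ℕ) : ℝ) * w a := by
  have hw' : ∀ a, ∑ b ∈ G.neighborFinset a, w b = s * ((q + 1 : ℕ) : ℝ) * w a := by
    intro a
    have := congrFun hw a
    rw [SimpleGraph.adjMatrix_mulVec_apply] at this
    simpa using this
  rw [sum_swg hS, hw' a]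
  have : ∑ k, (if e k = a then w (e (g k)) - w (e (h k)) else 0) = 0 := by
    refine sum_eq_zero fun k _ => ?_
    have h1 : w (e (g k)) = w (e (h k)) := by
      rcases hs with rfl | rfl
      · exact con_of_eig G hc hr (x := w) (by rw [hw, one_mul]) _ _
      · exact hbip w (fun a b hab => neg_of_eig hr (x := w)
          (fun a => by rw [hw' a]; ring) hab) k
    rw [h1, sub_self, ite_self]
  rw [this, add_zero]

/-- few eigenvalues are larger than before -/
theorem exc_half (hc : G.Connected) (hr : G.IsRegularOfDegree (q + 1)) (hS : Sw G e h g)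
    {M : ℝ} (hM : 0 ≤ M) (hsp : Spec G (q + 1) M)
    (hbip : ∀ χ : V → ℝ, (∀ a b, G.Adj a b → χ a = - χ b) → ∀ i, χ (e (g i)) = χ (e (h i)))
    (hA : ((swg hS).adjMatrix ℝ).IsHermitian) {s : ℝ} (hs : s = 1 ∨ s = -1) :
    (univ.filter fun k => hA.eigenvalues k ≠ s * ((q + 1 : ℕ) : ℝ) ∧
      M < s * hA.eigenvalues k).card ≤ Fintype.card I := by
  classical
  by_contra hcon
  push Not at hcon
  set K : Finset V := univ.filter fun k => hA.eigenvalues k ≠ s * ((q + 1 : ℕ) : ℝ) ∧
      M < s * hA.eigenvalues k with hK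
  have hin : ∀ f g : EuclideanSpace ℝ V, inner ℝ f g = (f : V → ℝ) ⬝ᵥ (g : V → ℝ) := by
    intro f g
    rw [PiLp.inner_apply]
    simp only [dotProduct]
    apply Finset.sum_congr rfl
    intro i _
    simp [mul_comm]
  set bb := hA.eigenvectorBasis with hbb
  set u : V → V → ℝ := fun i => (bb i : V → ℝ) with hu
  set l := hA.eigenvalues with hl
  have hev : ∀ i, ((swg hS).adjMatrix ℝ).mulVec (u i) = l i • u i := fun i =>
    hA.mulVec_eigenvectorBasis i
  have hev' : ∀ i a, ∑ b ∈ (swg hS).neighborFinset a, u i b = l i * u i a := by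
    intro i a
    have := congrFun (hev i) a
    rw [SimpleGraph.adjMatrix_mulVec_apply] at this
    simpa using this
  have hort : ∀ i j, u i ⬝ᵥ u j = if i = j then 1 else 0 := by
    intro i j
    rw [← orthonormal_iff_ite.1 bb.orthonormal i j, hin]
  -- a combination which vanishes at the places
  let Φ : ({k // k ∈ K} → ℝ) →ₗ[ℝ] (I → ℝ) :=
    { toFun := fun c i => ∑ k : {k // k ∈ K}, c k * u k.1 (e i)
      map_add' := by
        intro c c'
        ext i
        simp only [Pi.add_apply, add_mul, sum_add_distrib]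
      map_smul' := by
        intro t c
        ext i
        simp only [Pi.smul_apply, smul_eq_mul, RingHom.id_apply, mul_sum, mul_assoc] }
  have hker : LinearMap.ker Φ ≠ ⊥ := by
    apply LinearMap.ker_ne_bot_of_finrank_lt
    rw [Module.finrank_fintype_fun_eq_card, Module.finrank_fintype_fun_eq_card,
      Fintype.card_coe]
    exact hcon
  obtain ⟨c, hcm, hc0⟩ := Submodule.exists_mem_ne_zero_of_ne_bot hker
  rw [LinearMap.mem_ker] at hcm
  set f : V → ℝ := fun a => ∑ k : {k // k ∈ K}, c k * u k.1 a with hf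
  have hfe : ∀ i, f (e i) = 0 := fun i => congrFun hcm i
  have hfu : ∀ w : V → ℝ, w ⬝ᵥ f = ∑ k : {k // k ∈ K}, c k * (w ⬝ᵥ u k.1) := by
    intro w
    simp only [hf, dotProduct, mul_sum]
    rw [sum_comm]
    refine sum_congr rfl fun k _ => sum_congr rfl fun a _ => by ring
  have hcf : ∀ k : {k // k ∈ K}, u k.1 ⬝ᵥ f = c k := by
    intro k
    rw [hfu]
    simp only [hort]
    rw [sum_eq_single k]
    · simp
    · intro j _ hj
      rw [if_neg, mul_zero]
      exact fun h1 => hj (Subtype.ext h1.symm)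
    · intro h1; exact absurd (mem_univ _) h1
  have hff : ∑ a, f a ^ 2 = ∑ k : {k // k ∈ K}, c k ^ 2 := by
    have h1 : ∑ a, f a ^ 2 = f ⬝ᵥ f := sum_congr rfl fun a _ => by ring
    rw [h1, hfu]
    refine sum_congr rfl fun k _ => ?_
    rw [dotProduct_comm, hcf]; ring
  have hAf : ∀ a, ∑ b ∈ (swg hS).neighborFinset a, f b =
      ∑ k : {k // k ∈ K}, c k * (l k.1 * u k.1 a) := by
    intro a
    simp only [hf]
    rw [sum_comm]
    refine sum_congr rfl fun k _ => ?_
    rw [← mul_sum, hev']
  have hq1 : ∑ a, f a * ∑ b ∈ (swg hS).neighborFinset a, f b =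
      ∑ k : {k // k ∈ K}, l k.1 * c k ^ 2 := by
    simp only [hAf, mul_sum]
    rw [sum_comm]
    refine sum_congr rfl fun k _ => ?_
    have h1 : ∑ a, f a * (c k * (l k.1 * u k.1 a)) = c k * l k.1 * (u k.1 ⬝ᵥ f) := by
      unfold dotProduct
      rw [mul_sum]
      exact sum_congr rfl fun a _ => by ring
    rw [h1, hcf]; ring
  have hq2 := quad_swg hS f
  have hz : ∑ i, f (e i) * (f (e (g i)) - f (e (h i))) = 0 :=
    sum_eq_zero fun i _ => by rw [hfe i, zero_mul]
  rw [hz, add_zero, hq1] at hq2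
  -- the form of `G`
  obtain ⟨w, m, hw, hpar, hquad, hm, -, -, -⟩ := exists_basis G hc hr hsp
  have hAf' : f ⬝ᵥ (G.adjMatrix ℝ).mulVec f = ∑ a, f a * ∑ b ∈ G.neighborFinset a, f b := by
    unfold dotProduct
    exact sum_congr rfl fun a _ => by rw [SimpleGraph.adjMatrix_mulVec_apply]
  have hff' : f ⬝ᵥ f = ∑ a, f a ^ 2 := sum_congr rfl fun a _ => by ring
  have hss : s * s = 1 := by rcases hs with rfl | rfl <;> norm_num
  have hd0 : (0 : ℝ) < ((q + 1 : ℕ) : ℝ) := by positivity
  have hle : s * (∑ a, f a * ∑ b ∈ G.neighborFinset a, f b) ≤ M * ∑ a, f a ^ 2 := by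
    rw [← hAf', hquad, ← hff', ← hpar f, mul_sum, mul_sum]
    refine sum_le_sum fun i _ => ?_
    by_cases h1 : m i = s * ((q + 1 : ℕ) : ℝ)
    · have h2 : w i ⬝ᵥ f = 0 := by
        rw [hfu]
        refine sum_eq_zero fun k _ => ?_
        have h3 : w i ⬝ᵥ u k.1 = 0 := by
          have h4 := symm_sum (swg hS) (w i) (u k.1)
          have h5 := triv_eig hc hr hS hbip hs (w := w i) (by rw [hw i, h1])
          simp only [hev', h5] at h4
          have h7 : ∑ a, w i a * (l k.1 * u k.1 a) = l k.1 * (w i ⬝ᵥ u k.1) := by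
            unfold dotProduct
            rw [mul_sum]
            exact sum_congr rfl fun a _ => by ring
          have h8 : ∑ a, u k.1 a * (s * ((q + 1 : ℕ) : ℝ) * w i a) =
              s * ((q + 1 : ℕ) : ℝ) * (w i ⬝ᵥ u k.1) := by
            unfold dotProduct
            rw [mul_sum]
            exact sum_congr rfl fun a _ => by ring
          rw [h7, h8] at h4
          have h9 : (l k.1 - s * ((q + 1 : ℕ) : ℝ)) * (w i ⬝ᵥ u k.1) = 0 := by linarith
          rcases mul_eq_zero.1 h9 with h10 | h10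
          · exfalso
            have h11 := (mem_filter.1 k.2).2.1
            exact h11 (by linarith)
          · exact h10
        rw [h3, mul_zero]
      rw [h2]; simp
    · have h2 : s * m i ≤ M := by
        rcases hm i with h3 | h3
        · have h4 : s * m i = -((q + 1 : ℕ) : ℝ) := by
            rcases hs with rfl | rfl
            · rcases abs_choice (m i) with h5 | h5
              · exfalso; apply h1; rw [one_mul, ← h3, h5]
              · rw [one_mul, ← h3, h5]; ring
            · rcases abs_choice (m i) with h5 | h5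
              · rw [← h3, h5]; ring
              · exfalso; apply h1; rw [← h3, h5]; ring
          linarith
        · refine le_trans ?_ h3
          rcases hs with rfl | rfl
          · rw [one_mul]; exact le_abs_self _
          · rw [neg_one_mul]; exact neg_le_abs _
      have h3 := mul_le_mul_of_nonneg_right h2 (sq_nonneg (w i ⬝ᵥ f))
      linarith
  rw [← hq2, hff, mul_sum, mul_sum] at hle
  have hlt : ∑ k : {k // k ∈ K}, M * c k ^ 2 < ∑ k : {k // k ∈ K}, s * (l k.1 * c k ^ 2) := by
    obtain ⟨k, hk⟩ := Function.ne_iff.1 hc0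
    refine sum_lt_sum (fun j _ => ?_) ⟨k, mem_univ _, ?_⟩
    · have h1 := (mem_filter.1 j.2).2.2
      nlinarith [sq_nonneg (c j)]
    · have h1 := (mem_filter.1 k.2).2.2
      have h2 : 0 < c k ^ 2 := by
        have : c k ≠ 0 := hk
        positivity
      nlinarith
  linarith

/-- no exceptional eigenvalues -/
lemma exc_zero {d : ℕ} {M : ℝ} (hsp : Spec G d M) :
    ((G.adjMatrix ℝ).charpoly.roots.filter fun μ : ℝ => |μ| ≠ (d : ℝ) ∧ M < |μ|).card = 0 := by
  classical
  have hA : (G.adjMatrix ℝ).IsHermitian := by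
    have := G.isSymm_adjMatrix (α := ℝ)
    rw [Matrix.IsHermitian, Matrix.conjTranspose_eq_transpose_of_trivial]
    exact this
  rw [Multiset.card_eq_zero, Multiset.filter_eq_nil, hA.roots_charpoly_eq_eigenvalues]
  intro μ hμ
  rw [Multiset.mem_map] at hμ
  obtain ⟨k, -, rfl⟩ := hμ
  rintro ⟨h1, h2⟩
  have hne : (hA.eigenvectorBasis k : V → ℝ) ≠ 0 := by
    intro h4
    have h5 := hA.eigenvectorBasis.orthonormal.ne_zero k
    apply h5
    ext a
    exact congrFun h4 a
  rcases hsp (hA.eigenvalues k) ⟨(hA.eigenvectorBasis k : V → ℝ), hne,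
    hA.mulVec_eigenvectorBasis k⟩ with h3 | h3
  · exact h1 h3
  · exact absurd h2 (not_lt.2 h3)

/-- the number of exceptional eigenvalues -/
theorem exc_count (hc : G.Connected) (hr : G.IsRegularOfDegree (q + 1)) (hS : Sw G e h g)
    {M : ℝ} (hM : 0 ≤ M) (hsp : Spec G (q + 1) M)
    (hbip : ∀ χ : V → ℝ, (∀ a b, G.Adj a b → χ a = - χ b) → ∀ i, χ (e (g i)) = χ (e (h i))) :
    (((swg hS).adjMatrix ℝ).charpoly.roots.filter fun μ : ℝ =>
      |μ| ≠ ((q + 1 : ℕ) : ℝ) ∧ M < |μ|).card ≤ 2 * Fintype.card I := by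
  classical
  have hA : ((swg hS).adjMatrix ℝ).IsHermitian := by
    have := (swg hS).isSymm_adjMatrix (α := ℝ)
    rw [Matrix.IsHermitian, Matrix.conjTranspose_eq_transpose_of_trivial]
    exact this
  rw [hA.roots_charpoly_eq_eigenvalues, Multiset.filter_map, Multiset.card_map]
  have h1 := exc_half hc hr hS hM hsp hbip hA (s := 1) (Or.inl rfl)
  have h2 := exc_half hc hr hS hM hsp hbip hA (s := -1) (Or.inr rfl)
  have h3 : (univ.filter fun k => |hA.eigenvalues k| ≠ ((q + 1 : ℕ) : ℝ) ∧
      M < |hA.eigenvalues k|) ⊆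
      (univ.filter fun k => hA.eigenvalues k ≠ 1 * ((q + 1 : ℕ) : ℝ) ∧
        M < 1 * hA.eigenvalues k) ∪
      (univ.filter fun k => hA.eigenvalues k ≠ -1 * ((q + 1 : ℕ) : ℝ) ∧
        M < -1 * hA.eigenvalues k) := by
    intro k hk
    rw [mem_filter] at hk
    obtain ⟨-, h4, h5⟩ := hk
    rw [mem_union, mem_filter, mem_filter]
    have hd0 : (0 : ℝ) < ((q + 1 : ℕ) : ℝ) := by positivity
    rcases abs_choice (hA.eigenvalues k) with h6 | h6
    · left
      rw [h6] at h4 h5
      exact ⟨mem_univ _, by rw [one_mul]; exact h4, by rw [one_mul]; exact h5⟩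
    · right
      rw [h6] at h4 h5
      refine ⟨mem_univ _, ?_, by rw [neg_one_mul]; exact h5⟩
      intro h7
      apply h4
      rw [h7]; ring
  have h4 := (card_le_card h3).trans (card_union_le _ _)
  have h5 : (Multiset.filter ((fun μ : ℝ => |μ| ≠ ((q + 1 : ℕ) : ℝ) ∧ M < |μ|) ∘
      ((RCLike.ofReal : ℝ → ℝ) ∘ hA.eigenvalues)) (univ : Finset V).val).card =
      (univ.filter fun k => |hA.eigenvalues k| ≠ ((q + 1 : ℕ) : ℝ) ∧
        M < |hA.eigenvalues k|).card := by
    rw [Finset.card_def, Finset.filter_val]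
    congr 1
  rw [h5]
  omega

end Pool.Agent.helper42.PB
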