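import Mathlib
import Pool.Agent.helper42.PB.Bd

set_option autoImplicit false

/-!
# Planting a cycle in a regular graph, part 5: the switched graph is connected
-/

namespace Pool.Agent.helper42.PB

open Finset Matrix
open Pool.Agent.helper5.RG Pool.Agent.helper99.TV

variable {V : Type*} [Fintype V] [DecidableEq V] {G : SimpleGraph V} [DecidableRel G.Adj]
  {I : Type*} [Fintype I] [DecidableEq I] {e : I → V} {h g : I → I} {q ρ : ℕ}

theorem swg_spec (hq : 2 ≤ q) (hc : G.Connected) (hr : G.IsRegularOfDegree (q + 1))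
    (hS : Sw G e h g) (hP : Pl G e h ρ) {L : ℝ} (hs : Spec G (q + 1) L)
    (hbip : ∀ χ : V → ℝ, (∀ a b, G.Adj a b → χ a = - χ b) → ∀ i, χ (e (g i)) = χ (e (h i))) :
    Spec (swg hS) (q + 1) (max (2 * Real.sqrt q) (L + 72 / ((ρ : ℝ) + 1) ^ 3)) := by
  rintro μ ⟨x, hx0, hx⟩
  by_cases hμd : |μ| = ((q + 1 : ℕ) : ℝ)
  · exact Or.inl hμd
  right
  rcases lt_or_ge |μ| (2 * Real.sqrt q) with hμ | hμ
  · exact hμ.le.trans (le_max_left _ _)
  have hx' : ∀ a, ∑ b ∈ (swg hS).neighborFinset a, x b = μ * x a := by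
    intro a
    have := congrFun hx a
    rw [SimpleGraph.adjMatrix_mulVec_apply] at this
    simpa using this
  have hsum : ∑ a, x a = 0 := by
    have h1 := symm_sum (swg hS) (fun _ => (1 : ℝ)) x
    have h4 : ∀ i, ∑ _j ∈ (swg hS).neighborFinset i, (1 : ℝ) = ((q + 1 : ℕ) : ℝ) := by
      intro i
      rw [sum_const, SimpleGraph.card_neighborFinset_eq_degree, (swg_regular hS hr).degree_eq i]; simp
    simp only [hx', h4, one_mul] at h1
    rw [← mul_sum, ← sum_mul] at h1
    have h2 : (μ - ((q + 1 : ℕ) : ℝ)) * ∑ a, x a = 0 := by linarith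
    rcases mul_eq_zero.1 h2 with h3 | h3
    · exfalso
      apply hμd
      have : μ = ((q + 1 : ℕ) : ℝ) := by linarith
      rw [this, abs_of_nonneg (Nat.cast_nonneg _)]
    · exact h3
  have hne : μ ≠ -((q + 1 : ℕ) : ℝ) := by
    intro h1
    apply hμd
    rw [h1, abs_neg, abs_of_nonneg (Nat.cast_nonneg _)]
  exact (eig_le hq hc hr hS hP hs hbip hμ hne hx0 hsum hx').trans (le_max_right _ _)

theorem swg_conn (hq : 2 ≤ q) (hc : G.Connected) (hr : G.IsRegularOfDegree (q + 1))
    (hS : Sw G e h g) (hP : Pl G e h ρ) {L : ℝ} (hs : Spec G (q + 1) L)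
    (hbip : ∀ χ : V → ℝ, (∀ a b, G.Adj a b → χ a = - χ b) → ∀ i, χ (e (g i)) = χ (e (h i)))
    (hlt : L + 72 / ((ρ : ℝ) + 1) ^ 3 < ((q + 1 : ℕ) : ℝ)) : (swg hS).Connected := by
  classical
  have hne := hc.nonempty
  rw [SimpleGraph.connected_iff]
  refine ⟨fun a b => ?_, hne⟩
  by_contra hab
  set C : Finset V := univ.filter fun z => (swg hS).Reachable a z with hC
  set N : ℝ := (Fintype.card V : ℝ) with hN
  set f : V → ℝ := fun z => (if (swg hS).Reachable a z then N else 0) - C.card with hf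
  have hfz : ∀ z w, (swg hS).Adj z w → f w = f z := by
    intro z w hzw
    have : (swg hS).Reachable a w ↔ (swg hS).Reachable a z :=
      ⟨fun h1 => h1.trans hzw.symm.reachable, fun h1 => h1.trans hzw.reachable⟩
    simp only [hf, this]
  have hsum : ∑ z, f z = 0 := by
    simp only [hf]
    rw [sum_sub_distrib, ← sum_filter, sum_const, sum_const, nsmul_eq_mul, nsmul_eq_mul, card_univ,
      ← hC, ← hN]
    ring
  have heig : ∀ z, ∑ w ∈ (swg hS).neighborFinset z, f w = ((q + 1 : ℕ) : ℝ) * f z := by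
    intro z
    have h1 : ∑ w ∈ (swg hS).neighborFinset z, f w = ∑ w ∈ (swg hS).neighborFinset z, f z := by
      apply sum_congr rfl
      intro w hw
      rw [SimpleGraph.mem_neighborFinset] at hw
      exact hfz z w hw
    rw [h1, sum_const, SimpleGraph.card_neighborFinset_eq_degree, (swg_regular hS hr).degree_eq z,
      nsmul_eq_mul]
  have hcard : (C.card : ℝ) < N := by
    have h1 : C.card < Fintype.card V := by
      rw [← card_univ]
      apply card_lt_card
      rw [ssubset_univ_iff]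
      intro h2
      have h3 : b ∈ C := by rw [h2]; exact mem_univ _
      rw [hC, mem_filter] at h3
      exact hab h3.2
    rw [hN]; exact_mod_cast h1
  have hf0 : f ≠ 0 := by
    intro h1
    have h2 := congrFun h1 a
    simp only [hf, Pi.zero_apply, SimpleGraph.Reachable.refl, if_true] at h2
    linarith
  have hd0 : (0 : ℝ) < ((q + 1 : ℕ) : ℝ) := by positivity
  have hd : |((q + 1 : ℕ) : ℝ)| = ((q + 1 : ℕ) : ℝ) := abs_of_pos hd0
  have hμ : 2 * Real.sqrt q ≤ |((q + 1 : ℕ) : ℝ)| := by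
    rw [hd]
    push_cast
    have h1 := Real.sq_sqrt (Nat.cast_nonneg q : (0 : ℝ) ≤ q)
    nlinarith [sq_nonneg (Real.sqrt q - 1)]
  have h1 := eig_le hq hc hr hS hP hs hbip hμ (by linarith) hf0 hsum heig
  rw [hd] at h1
  linarith

end Pool.Agent.helper42.PB
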