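import Mathlib
import Pool.Agent.helper5.RG.Tre
import Pool.Agent.helper42.PB.Sw

set_option autoImplicit false

/-!
# Planting a cycle in a regular graph, part 6: geodesics and trees
-/

namespace Pool.Agent.helper42.PB

open Finset
open Pool.Agent.helper5.RG Pool.Agent.helper99.TV

variable {V : Type*} [Fintype V] [DecidableEq V] {G : SimpleGraph V} [DecidableRel G.Adj]
  {I : Type*} [Fintype I] [DecidableEq I] {e : I → V} {h g : I → I}

/-- smaller balls inside a tree ball are trees -/
lemma tree_mono (hc : G.Connected) {v u : V} {r k : ℕ}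
    (ht : (G.induce {x : V | G.dist v x ≤ r}).IsTree) (hk : G.dist v u + k ≤ r) :
    (G.induce {x : V | G.dist u x ≤ k}).IsTree := by
  refine ⟨preconnected_ball G hc u k, ?_⟩
  have hle : {x : V | G.dist u x ≤ k} ⊆ {x : V | G.dist v x ≤ r} := by
    intro x hx
    have h1 : G.dist u x ≤ k := hx
    have h2 : G.dist v x ≤ G.dist v u + G.dist u x := hc.dist_triangle
    show G.dist v x ≤ r
    omega
  exact ht.isAcyclic.comap (G.induceHomOfLE hle).toHom (G.induceHomOfLE hle).injective

lemma W_of_tree (hc : G.Connected) {v u : V} {r k : ℕ}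
    (ht : (G.induce {x : V | G.dist v x ≤ r}).IsTree) (hk : G.dist v u + k ≤ r) {z : V}
    (hz : G.dist u z ≤ k) : W G u z = 0 :=
  W_eq_zero G hc u k (tree_mono hc ht hk) z hz

lemma geo_take (hc : G.Connected) {a b : V} (p : G.Walk a b) (hp : p.length = G.dist a b)
    {z : V} (hz : z ∈ p.support) : (p.takeUntil z hz).length = G.dist a z ∧
      G.dist a z + G.dist z b = G.dist a b := by
  have h1 : (p.takeUntil z hz).length + (p.dropUntil z hz).length = p.length := by
    rw [← SimpleGraph.Walk.length_append, p.take_spec]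
  have h2 : G.dist a z ≤ (p.takeUntil z hz).length := SimpleGraph.dist_le _
  have h3 : G.dist z b ≤ (p.dropUntil z hz).length := SimpleGraph.dist_le _
  have h4 : G.dist a b ≤ G.dist a z + G.dist z b := hc.dist_triangle
  omega

/-- vertices of a geodesic -/
lemma geo_support (hc : G.Connected) {a b : V} (p : G.Walk a b) (hp : p.length = G.dist a b)
    {z : V} (hz : z ∈ p.support) : G.dist a z + G.dist z b = G.dist a b :=
  (geo_take hc p hp hz).2

/-- the vertex of a geodesic at a given distance from the start -/
lemma geo_getVert (hc : G.Connected) {a b : V} (p : G.Walk a b) (hp : p.length = G.dist a b)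
    {z : V} (hz : z ∈ p.support) : p.getVert (G.dist a z) = z := by
  rw [← (geo_take hc p hp hz).1]
  exact SimpleGraph.Walk.getVert_length_takeUntil hz

/-- walks which avoid the removed edges survive -/
lemma surv (hS : Sw G e h g) {a b : V} (p : G.Walk a b)
    (hab : ∀ i, ¬ (e i ∈ p.support ∧ e (h i) ∈ p.support)) :
    ∀ x ∈ p.edges, x ∈ (swg hS).edgeSet := by
  intro x hx
  induction x using Sym2.ind with
  | h u w =>
    have h1 := p.adj_of_mem_edges hx
    have h2 := p.fst_mem_support_of_mem_edges hx
    have h3 := p.snd_mem_support_of_mem_edges hx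
    rw [SimpleGraph.mem_edgeSet, swg_adj]
    left
    refine ⟨h1, ?_⟩
    rintro ⟨i, rfl, rfl⟩
    exact hab i ⟨h2, h3⟩

/-- a path of length at least two between adjacent vertices of a ball -/
lemma not_tree (H : SimpleGraph V) (t : V) (r : ℕ) {v y : V} (P : H.Walk v y) (hP : P.IsPath)
    (hl : 2 ≤ P.length) (hadj : H.Adj v y) (hin : ∀ z ∈ P.support, H.dist t z ≤ r) :
    ¬ (H.induce {u : V | H.dist t u ≤ r}).IsTree := by
  intro ht
  have hv : H.dist t v ≤ r := hin v P.start_mem_support
  have hy : H.dist t y ≤ r := hin y P.end_mem_support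
  have hin' : ∀ z ∈ P.support, z ∈ {u : V | H.dist t u ≤ r} := hin
  have h1 : (P.induce _ hin').IsPath :=
    SimpleGraph.Walk.IsPath.of_map (f := (SimpleGraph.Embedding.induce _).toHom) (by
      rw [SimpleGraph.Walk.map_induce]
      exact hP)
  have hadj' : (H.induce {u : V | H.dist t u ≤ r}).Adj ⟨v, hv⟩ ⟨y, hy⟩ := hadj
  have h2 := ht.isAcyclic.subsingleton_path ⟨v, hv⟩ ⟨y, hy⟩
  have h3 : (⟨P.induce _ hin', h1⟩ : (H.induce {u : V | H.dist t u ≤ r}).Path ⟨v, hv⟩ ⟨y, hy⟩) =
    SimpleGraph.Path.singleton hadj' := Subsingleton.elim _ _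
  have h4 := congrArg (fun p => (Subtype.val p).length) h3
  have h5 : (P.induce _ hin').length = P.length := by
    have h6 := congrArg SimpleGraph.Walk.length (SimpleGraph.Walk.map_induce P hin')
    rw [SimpleGraph.Walk.length_map] at h6
    exact h6
  simp only [h5, SimpleGraph.Path.singleton] at h4
  simp at h4
  omega

/-- far from the places the two graphs have the same small balls -/
lemma far_tree (hc : G.Connected) (hS : Sw G e h g) {t : V} {R r : ℕ} (hR : R ≤ r)
    (hfar : ∀ i, R < G.dist t (e i))
    (ht : ((swg hS).induce {u : V | (swg hS).dist t u ≤ r}).IsTree) :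
    (G.induce {u : V | G.dist t u ≤ R}).IsTree := by
  refine ⟨preconnected_ball G hc t R, ?_⟩
  have hle : ∀ u, G.dist t u ≤ R → (swg hS).dist t u ≤ r := by
    intro u hu
    obtain ⟨p, hp⟩ := hc.exists_walk_length_eq_dist t u
    have hs : ∀ i, ¬ (e i ∈ p.support ∧ e (h i) ∈ p.support) := by
      rintro i ⟨h1, -⟩
      have h2 := geo_support hc p hp h1
      have h3 := hfar i
      omega
    have h4 := SimpleGraph.dist_le (p.transfer _ (surv hS p hs))
    rw [SimpleGraph.Walk.length_transfer] at h4
    omega
  let f : (G.induce {u : V | G.dist t u ≤ R}) →g ((swg hS).induce {u : V | (swg hS).dist t u ≤ r}) :=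
    { toFun := fun u => ⟨u.1, hle u.1 u.2⟩
      map_rel' := by
        rintro ⟨a, ha⟩ ⟨b, hb⟩ hab
        have hab' : G.Adj a b := hab
        show (swg hS).Adj a b
        rw [swg_adj]
        left
        refine ⟨hab', ?_⟩
        rintro ⟨i, rfl, -⟩
        have h3 := hfar i
        have h4 : G.dist t (e i) ≤ R := ha
        omega }
  refine ht.isAcyclic.comap f ?_
  rintro ⟨a, ha⟩ ⟨b, hb⟩ hab
  have h1 : a = b := congrArg (fun x => x.1) hab
  exact Subtype.ext h1

/-- alternating functions -/
lemma alt_dist (hc : G.Connected) {χ : V → ℝ} (hχ : ∀ a b, G.Adj a b → χ a = - χ b) (v w : V) :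
    χ w = (-1) ^ (G.dist v w) * χ v := by
  obtain ⟨p, hp⟩ := hc.exists_walk_length_eq_dist v w
  rw [← hp]
  clear hp
  induction p with
  | nil => simp
  | @cons a b c hab p ih =>
    rw [SimpleGraph.Walk.length_cons, pow_succ, ih, hχ a b hab]
    ring

/-- distances between different branches of a tree ball -/
lemma cross (hc : G.Connected) {z a b x : V} {R : ℕ} (hza : G.Adj z a) (hzb : G.Adj z b)
    (hab : a ≠ b) (hx : G.dist a x + 1 = G.dist z x) (hW : ∀ w, G.dist x w ≤ R → W G x w = 0) :
    ∀ j, G.dist z x + j ≤ R → ∀ w, G.dist z w = j + 1 → G.dist b w = j →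
      G.dist x w = G.dist z x + j + 1 := by
  have hxz : G.dist x z = G.dist z x := SimpleGraph.dist_comm
  intro j
  induction j with
  | zero =>
    intro hR w _ hbw
    have hwb : b = w := (hc.dist_eq_zero_iff).1 hbw
    subst hwb
    have h1 := dist_adj_le G hc x hzb
    by_contra hne
    have h2 := eq_par G (hW z (by omega)) hzb (by omega)
    have h3 : G.dist x a = G.dist a x := SimpleGraph.dist_comm
    have h4 := eq_par G (hW z (by omega)) hza (by omega)
    exact hab (h4.trans h2.symm)
  | succ j ih =>
    intro hR w hzw hbw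
    have hbw' : w ≠ b := by
      rintro rfl
      rw [SimpleGraph.dist_self] at hbw
      omega
    obtain ⟨h1, h2⟩ := par_spec G hc hbw'
    set w' := par G b w with hw'
    have h3 : G.dist z w' = j + 1 := by
      have h4 := dist_adj_le G hc z h1.symm
      have h5 : G.dist z w' ≤ G.dist z b + G.dist b w' := hc.dist_triangle
      have h6 : G.dist z b = 1 := SimpleGraph.dist_eq_one_iff_adj.2 hzb
      omega
    have h4 := ih (by omega) w' h3 (by omega)
    have h5 := dist_adj_le G hc x h1.symm
    by_contra hne
    have hWw := hW w' (by omega)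
    have h6 := eq_par G hWw h1.symm (by omega)
    -- the parent of `w'` towards `z`
    have hwz : w' ≠ z := by
      intro h7
      rw [h7, SimpleGraph.dist_self] at h3
      omega
    obtain ⟨h7, h8⟩ := par_spec G hc hwz
    have h9 : G.dist x (par G z w') ≤ G.dist x z + G.dist z (par G z w') := hc.dist_triangle
    have h10 := eq_par G hWw h7 (by omega)
    rw [← h6] at h10
    rw [h10] at h8
    omega

/-- a vertex which few of the given vertices choose -/
lemma exists_small (X C : Finset V) (f : V → V) (hX : X.Nonempty) :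
    ∃ x ∈ X, X.card * (C.filter fun t => f t = x).card ≤ C.card := by
  classical
  obtain ⟨x, hx, hmin⟩ := X.exists_min_image (fun x => (C.filter fun t => f t = x).card) hX
  refine ⟨x, hx, ?_⟩
  calc X.card * (C.filter fun t => f t = x).card
      = ∑ _w ∈ X, (C.filter fun t => f t = x).card := by rw [sum_const, smul_eq_mul]
    _ ≤ ∑ w ∈ X, (C.filter fun t => f t = w).card := sum_le_sum fun w hw => hmin w hw
    _ = ∑ w ∈ X, ((C.filter fun t => f t ∈ X).filter fun t => f t = w).card := by
        refine sum_congr rfl fun w hw => ?_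
        congr 1
        ext t
        simp only [mem_filter]
        constructor
        · rintro ⟨h1, h2⟩
          exact ⟨⟨h1, h2 ▸ hw⟩, h2⟩
        · rintro ⟨⟨h1, -⟩, h2⟩
          exact ⟨h1, h2⟩
    _ = (C.filter fun t => f t ∈ X).card :=
        (card_eq_sum_card_fiberwise fun t ht => (mem_filter.1 ht).2).symm
    _ ≤ C.card := card_filter_le _ _

end Pool.Agent.helper42.PB
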