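import Mathlib
import Pool.Agent.helper42.PB.Geo
import Pool.Agent.helper42.PB.Bd

set_option autoImplicit false

/-!
# Planting a cycle in a regular graph, part 7: the sites

A site has a center `z`; `n` and `y'` are vertices at distance `m + 1` and `m + 2` from `z` in
different branches, `v` and `y` their parents.  The edges `v - n` and `y - y'` are replaced by
`v - y` and `n - y'`.
-/

namespace Pool.Agent.helper42.PB

open Finset
open Pool.Agent.helper5.RG Pool.Agent.helper99.TV

variable {V : Type*} [Fintype V] [DecidableEq V] {G : SimpleGraph V} [DecidableRel G.Adj]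

/-- data of the sites -/
structure Site (G : SimpleGraph V) [DecidableRel G.Adj] (m R : ℕ) (Z : Finset V)
    (v n y y' : V → V) : Prop where
  tree : ∀ z ∈ Z, (G.induce {x : V | G.dist z x ≤ R}).IsTree
  far : ∀ z ∈ Z, ∀ w ∈ Z, z ≠ w → 4 * m + 2 < G.dist z w
  dv : ∀ z ∈ Z, G.dist z (v z) = m
  an : ∀ z ∈ Z, G.Adj (v z) (n z)
  dn : ∀ z ∈ Z, G.dist z (n z) = m + 1
  dy : ∀ z ∈ Z, G.dist z (y z) = m + 1
  ay : ∀ z ∈ Z, G.Adj (y z) (y' z)
  dy' : ∀ z ∈ Z, G.dist z (y' z) = m + 2
  dny' : ∀ z ∈ Z, G.dist (n z) (y' z) = 2 * m + 3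

/-- the places -/
abbrev Ix (Z : Finset V) := {v : V // v ∈ Z} × Bool × Bool

/-- the vertex of a place -/
def ee (Z : Finset V) (v n y y' : V → V) : Ix Z → V
  | (z, false, false) => v z.1
  | (z, false, true) => n z.1
  | (z, true, false) => y z.1
  | (z, true, true) => y' z.1

/-- the old partner -/
def hh' (Z : Finset V) : Ix Z → Ix Z := fun i => (i.1, i.2.1, !i.2.2)

/-- the new partner -/
def gg' (Z : Finset V) : Ix Z → Ix Z := fun i => (i.1, !i.2.1, i.2.2)

variable {m R : ℕ} {Z : Finset V} {v n y y' : V → V}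

lemma site_dist (hD : Site G m R Z v n y y') (z : {v : V // v ∈ Z}) (a b : Bool) :
    G.dist z.1 (ee Z v n y y' (z, a, b)) =
      match a, b with
      | false, false => m
      | false, true => m + 1
      | true, false => m + 1
      | true, true => m + 2 := by
  cases a <;> cases b
  · exact hD.dv z.1 z.2
  · exact hD.dn z.1 z.2
  · exact hD.dy z.1 z.2
  · exact hD.dy' z.1 z.2

lemma site_dist_le (hD : Site G m R Z v n y y') (z : {v : V // v ∈ Z}) (ab : Bool × Bool) :
    G.dist z.1 (ee Z v n y y' (z, ab)) ≤ m + 2 := by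
  rcases ab with ⟨a, b⟩
  rw [site_dist hD]
  cases a <;> cases b <;> simp

/-- distances between the two pairs of places of a site -/
lemma site_cross (hc : G.Connected) (hD : Site G m R Z v n y y') (z : {v : V // v ∈ Z})
    (b b' : Bool) : 2 * m + 1 + (if b then 1 else 0) + (if b' then 1 else 0) ≤
      G.dist (ee Z v n y y' (z, false, b)) (ee Z v n y y' (z, true, b')) := by
  have h0 := hD.dny' z.1 z.2
  have h1 : G.dist (n z.1) (v z.1) = 1 := SimpleGraph.dist_eq_one_iff_adj.2 (hD.an z.1 z.2).symm
  have h2 : G.dist (y z.1) (y' z.1) = 1 := SimpleGraph.dist_eq_one_iff_adj.2 (hD.ay z.1 z.2)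
  have h3 : G.dist (n z.1) (y' z.1) ≤ G.dist (n z.1) (v z.1) + G.dist (v z.1) (y' z.1) :=
    hc.dist_triangle
  have h4 : G.dist (n z.1) (y' z.1) ≤ G.dist (n z.1) (y z.1) + G.dist (y z.1) (y' z.1) :=
    hc.dist_triangle
  have h5 : G.dist (v z.1) (y' z.1) ≤ G.dist (v z.1) (y z.1) + G.dist (y z.1) (y' z.1) :=
    hc.dist_triangle
  cases b <;> cases b'
  · show _ ≤ G.dist (v z.1) (y z.1)
    simp only [Bool.false_eq_true, if_false]
    omega
  · show _ ≤ G.dist (v z.1) (y' z.1)
    simp only [Bool.false_eq_true, if_false, if_true]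
    omega
  · show _ ≤ G.dist (n z.1) (y z.1)
    simp only [Bool.false_eq_true, if_false, if_true]
    omega
  · show _ ≤ G.dist (n z.1) (y' z.1)
    simp only [if_true]
    omega

/-- places of different sites are far apart -/
lemma site_far (hm : 1 ≤ m) (hc : G.Connected) (hD : Site G m R Z v n y y')
    {z w : {v : V // v ∈ Z}} (hzw : z ≠ w) (a b : Bool × Bool) :
    2 * m - 2 < G.dist (ee Z v n y y' (z, a)) (ee Z v n y y' (w, b)) := by
  have h1 := site_dist_le hD z a
  have h2 := site_dist_le hD w b
  have h3 := hD.far z.1 z.2 w.1 w.2 (fun h => hzw (Subtype.ext h))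
  have h4 : G.dist z.1 w.1 ≤ G.dist z.1 (ee Z v n y y' (z, a)) +
    G.dist (ee Z v n y y' (z, a)) w.1 := hc.dist_triangle
  have h5 : G.dist (ee Z v n y y' (z, a)) w.1 ≤
    G.dist (ee Z v n y y' (z, a)) (ee Z v n y y' (w, b)) +
      G.dist (ee Z v n y y' (w, b)) w.1 := hc.dist_triangle
  have h6 : G.dist (ee Z v n y y' (w, b)) w.1 = G.dist w.1 (ee Z v n y y' (w, b)) :=
    SimpleGraph.dist_comm
  omega

theorem site_sw (hm : 1 ≤ m) (hc : G.Connected) (hD : Site G m R Z v n y y') :
    Sw G (ee Z v n y y') (hh' Z) (gg' Z) where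
  inj := by
    rintro ⟨z, a, b⟩ ⟨w, a', b'⟩ he
    by_cases hzw : z = w
    · subst hzw
      have key : ∀ b b', ee Z v n y y' (z, false, b) ≠ ee Z v n y y' (z, true, b') := by
        intro b b' he
        have h1 := site_cross hc hD z b b'
        rw [he, SimpleGraph.dist_self] at h1
        omega
      have h1 : ee Z v n y y' (z, false, false) ≠ ee Z v n y y' (z, false, true) :=
        (hD.an z.1 z.2).ne
      have h2 : ee Z v n y y' (z, true, false) ≠ ee Z v n y y' (z, true, true) :=
        (hD.ay z.1 z.2).ne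
      cases a <;> cases a'
      · cases b <;> cases b'
        · rfl
        · exact absurd he h1
        · exact absurd he.symm h1
        · rfl
      · exact absurd he (key b b')
      · exact absurd he.symm (key b' b)
      · cases b <;> cases b'
        · rfl
        · exact absurd he h2
        · exact absurd he.symm h2
        · rfl
    · exfalso
      have h1 := site_far hm hc hD hzw (a, b) (a', b')
      rw [he, SimpleGraph.dist_self] at h1
      omega
  hh := by rintro ⟨v, a, b⟩; simp [hh']
  gg := by rintro ⟨v, a, b⟩; simp [gg']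
  gh := by rintro ⟨v, a, b⟩; simp [hh', gg']
  gi := by rintro ⟨v, a, b⟩; simp [gg']
  adj := by
    rintro ⟨z, a, b⟩
    cases a <;> cases b
    · exact hD.an z.1 z.2
    · exact (hD.an z.1 z.2).symm
    · exact hD.ay z.1 z.2
    · exact (hD.ay z.1 z.2).symm
  nadj := by
    have key : ∀ (z : {v : V // v ∈ Z}) (b : Bool),
        ¬ G.Adj (ee Z v n y y' (z, false, b)) (ee Z v n y y' (z, true, b)) := by
      intro z b hadj
      have h1 := site_cross hc hD z b b
      rw [SimpleGraph.dist_eq_one_iff_adj.2 hadj] at h1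
      omega
    rintro ⟨z, a, b⟩
    cases a
    · exact key z b
    · exact fun h => key z b h.symm

theorem site_pl (hm : 1 ≤ m) (hR : 2 * m + 2 ≤ R) (hc : G.Connected)
    (hD : Site G m R Z v n y y') : Pl G (ee Z v n y y') (hh' Z) (m - 1) where
  tree := by
    rintro ⟨z, ab⟩ x hx
    have h1 := site_dist_le hD z ab
    exact W_of_tree hc (hD.tree z.1 z.2) (k := m) (by omega) (by omega)
  sep := by
    rintro ⟨z, a, b⟩ ⟨w, a', b'⟩ h1 h2
    by_cases hzw : z = w
    · subst hzw
      have haa : a ≠ a' := by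
        rintro rfl
        cases b <;> cases b'
        · exact h1 rfl
        · exact h2 rfl
        · exact h2 rfl
        · exact h1 rfl
      cases a <;> cases a'
      · exact absurd rfl haa
      · have := site_cross hc hD z b b'
        omega
      · have := site_cross hc hD z b' b
        rw [SimpleGraph.dist_comm] at this
        omega
      · exact absurd rfl haa
    · have h3 := site_far hm hc hD hzw (a, b) (a', b')
      omega

theorem site_bip (hc : G.Connected) (hD : Site G m R Z v n y y') (χ : V → ℝ)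
    (hχ : ∀ a b, G.Adj a b → χ a = - χ b) (i : Ix Z) :
    χ (ee Z v n y y' (gg' Z i)) = χ (ee Z v n y y' (hh' Z i)) := by
  have key : ∀ (z : {v : V // v ∈ Z}) (a b : Bool), χ (ee Z v n y y' (z, a, b)) =
      (-1) ^ m * if a = b then χ z.1 else - χ z.1 := by
    intro z a b
    rw [alt_dist hc hχ z.1, site_dist hD]
    cases a <;> cases b <;> simp [pow_succ]
  obtain ⟨z, a, b⟩ := i
  simp only [gg', hh', key]
  cases a <;> cases b <;> simp

end Pool.Agent.helper42.PB
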