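import Mathlib
import Pool.Agent.helper42.PB.Site
import Pool.Agent.helper42.PB.Cnn

set_option autoImplicit false

/-!
# Planting a cycle in a regular graph, part 8: almost all tree balls are destroyed
-/

namespace Pool.Agent.helper42.PB

open Finset
open Pool.Agent.helper5.RG Pool.Agent.helper99.TV

variable {V : Type*} [Fintype V] [DecidableEq V] {G : SimpleGraph V} [DecidableRel G.Adj]
  {m r R q : ℕ} {Z : Finset V} {v n y y' : V → V}

/-- a geodesic from `t` to its center which avoids `n` and `y'` survives -/
lemma toCenter_surv (hc : G.Connected) (hD : Site G m R Z v n y y') {t z : V} (hz : z ∈ Z)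
    (hnear : ∀ w ∈ Z, G.dist t z ≤ G.dist t w) (p : G.Walk t z) (hp : p.length = G.dist t z)
    (hn : n z ∉ p.support) (hy' : y' z ∉ p.support) (i : Ix Z) :
    ¬ (ee Z v n y y' i ∈ p.support ∧ ee Z v n y y' (hh' Z i) ∈ p.support) := by
  obtain ⟨w, a, b⟩ := i
  intro hcon
  have h0 : ee Z v n y y' (w, a, false) ∈ p.support := by
    cases b
    · exact hcon.1
    · exact hcon.2
  have h1 : ee Z v n y y' (w, a, true) ∈ p.support := by
    cases b
    · exact hcon.2
    · exact hcon.1
  clear hcon
  by_cases hwz : w.1 = z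
  · subst hwz
    cases a
    · exact hn h1
    · exact hy' h1
  · have h2 := hD.far w.1 w.2 z hz hwz
    have h3 := hnear w.1 w.2
    have h4 := site_dist hD w a false
    have h5 : G.dist w.1 (ee Z v n y y' (w, a, false)) ≤ m + 1 := by
      rw [h4]; cases a <;> simp
    set x := ee Z v n y y' (w, a, false) with hx
    have h6 : G.dist t w.1 ≤ G.dist t x + G.dist x w.1 := hc.dist_triangle
    have h7 : G.dist w.1 z ≤ G.dist w.1 x + G.dist x z := hc.dist_triangle
    have h8 := geo_support hc p hp h0
    rw [SimpleGraph.dist_comm (u := x) (v := w.1)] at h6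
    omega

/-- the geodesic from `v` to `y` survives -/
lemma inSite_surv (hc : G.Connected) (hD : Site G m R Z v n y y') {z : V} (hz : z ∈ Z)
    (p : G.Walk (v z) (y z)) (hp : p.length = 2 * m + 1) (i : Ix Z) :
    ¬ (ee Z v n y y' i ∈ p.support ∧ ee Z v n y y' (hh' Z i) ∈ p.support) := by
  have hd : G.dist (v z) (y z) = 2 * m + 1 := by
    have h1 := site_cross hc hD ⟨z, hz⟩ false false
    have h2 : 2 * m + 1 ≤ G.dist (v z) (y z) := by simpa [ee] using h1
    have h3 : G.dist (v z) (y z) ≤ p.length := SimpleGraph.dist_le p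
    omega
  have hp' : p.length = G.dist (v z) (y z) := by omega
  obtain ⟨w, a, b⟩ := i
  intro hcon
  have h0 : ee Z v n y y' (w, a, false) ∈ p.support := by
    cases b
    · exact hcon.1
    · exact hcon.2
  have h1 : ee Z v n y y' (w, a, true) ∈ p.support := by
    cases b
    · exact hcon.2
    · exact hcon.1
  clear hcon
  have h2 := geo_support hc p hp' h1
  by_cases hwz : w.1 = z
  · obtain ⟨w, hw⟩ := w
    have hwz' : w = z := hwz
    subst hwz'
    cases a
    · have h3 : G.dist (v w) (n w) + G.dist (n w) (y w) = G.dist (v w) (y w) := h2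
      have h4 := site_cross hc hD ⟨w, hw⟩ true false
      have h5 : 2 * m + 1 + 1 ≤ G.dist (n w) (y w) := by simpa [ee] using h4
      omega
    · have h3 : G.dist (v w) (y' w) + G.dist (y' w) (y w) = G.dist (v w) (y w) := h2
      have h4 := site_cross hc hD ⟨w, hw⟩ false true
      have h5 : 2 * m + 1 + 1 ≤ G.dist (v w) (y' w) := by simpa [ee] using h4
      omega
  · have h3 := hD.far w.1 w.2 z hz hwz
    have h4 := site_dist_le hD w (a, false)
    have h4' : G.dist w.1 (ee Z v n y y' (w, a, false)) ≤ m + 1 := by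
      rw [site_dist hD]; cases a <;> simp
    have h5 := geo_support hc p hp' h0
    set x := ee Z v n y y' (w, a, false) with hx
    have h6 : G.dist z x ≤ G.dist z (v z) + G.dist (v z) x := hc.dist_triangle
    have h7 : G.dist z x ≤ G.dist z (y z) + G.dist (y z) x := hc.dist_triangle
    have h8 := hD.dv z hz
    have h9 := hD.dy z hz
    have h10 : G.dist w.1 z ≤ G.dist w.1 x + G.dist x z := hc.dist_triangle
    rw [SimpleGraph.dist_comm (u := y z) (v := x)] at h7
    rw [SimpleGraph.dist_comm (u := x) (v := z)] at h10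
    omega

/-- balls around vertices near a center -/
theorem ball_near (hm : 1 ≤ m) (hc : G.Connected) (hD : Site G m R Z v n y y') {t z : V}
    (hz : z ∈ Z) (htz : G.dist t z + (m + 1) ≤ r)
    (hnear : ∀ w ∈ Z, G.dist t z ≤ G.dist t w) (p : G.Walk t z) (hp : p.length = G.dist t z)
    (hn : n z ∉ p.support) (hy' : y' z ∉ p.support) : Bad (swg (site_sw hm hc hD)) r t := by
  have hS := site_sw hm hc hD
  obtain ⟨p1, hp1⟩ := hc.exists_walk_length_eq_dist (v z) z
  obtain ⟨p2, hp2⟩ := hc.exists_walk_length_eq_dist z (y z)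
  rw [SimpleGraph.dist_comm, hD.dv z hz] at hp1
  rw [hD.dy z hz] at hp2
  have hlen : (p1.append p2).length = 2 * m + 1 := by
    rw [SimpleGraph.Walk.length_append]; omega
  have hd : (p1.append p2).length = G.dist (v z) (y z) := by
    have h1 := site_cross hc hD ⟨z, hz⟩ false false
    have h2 : 2 * m + 1 ≤ G.dist (v z) (y z) := by simpa [ee] using h1
    have h3 : G.dist (v z) (y z) ≤ (p1.append p2).length := SimpleGraph.dist_le _
    omega
  have hs := surv hS (p1.append p2) (inSite_surv hc hD hz _ hlen)
  have hs1 : ∀ x ∈ p1.edges, x ∈ (swg hS).edgeSet := fun x hx =>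
    hs x (by rw [SimpleGraph.Walk.edges_append]; exact List.mem_append_left _ hx)
  have hs2 : ∀ x ∈ p2.edges, x ∈ (swg hS).edgeSet := fun x hx =>
    hs x (by rw [SimpleGraph.Walk.edges_append]; exact List.mem_append_right _ hx)
  have hpath : (p1.append p2).IsPath := (p1.append p2).isPath_of_length_eq_dist hd
  have ht := surv hS p (toCenter_surv hc hD hz hnear p hp hn hy')
  have htd : (swg hS).dist t z ≤ G.dist t z := by
    have h1 := SimpleGraph.dist_le (p.transfer _ ht)
    rw [SimpleGraph.Walk.length_transfer] at h1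
    omega
  refine not_tree _ t r ((p1.append p2).transfer _ hs) (hpath.transfer hs) ?_
    (Or.inr ⟨(⟨z, hz⟩, false, false), rfl, rfl⟩) ?_
  · rw [SimpleGraph.Walk.length_transfer]; omega
  intro x hx
  rw [SimpleGraph.Walk.support_transfer, SimpleGraph.Walk.mem_support_append_iff] at hx
  rcases hx with hx | hx
  · have hx' : x ∈ (p1.transfer _ hs1).reverse.support := by
      rw [SimpleGraph.Walk.support_reverse, List.mem_reverse,
        SimpleGraph.Walk.support_transfer]
      exact hx
    have h1 := (p1.transfer _ hs1).reverse.length_takeUntil_le_length hx'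
    have h2 := SimpleGraph.dist_le
      ((p.transfer _ ht).append ((p1.transfer _ hs1).reverse.takeUntil x hx'))
    rw [SimpleGraph.Walk.length_reverse, SimpleGraph.Walk.length_transfer] at h1
    rw [SimpleGraph.Walk.length_append, SimpleGraph.Walk.length_transfer] at h2
    omega
  · have hx' : x ∈ (p2.transfer _ hs2).support := by
      rw [SimpleGraph.Walk.support_transfer]
      exact hx
    have h1 := (p2.transfer _ hs2).length_takeUntil_le_length hx'
    have h2 := SimpleGraph.dist_le
      ((p.transfer _ ht).append ((p2.transfer _ hs2).takeUntil x hx'))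
    rw [SimpleGraph.Walk.length_transfer] at h1
    rw [SimpleGraph.Walk.length_append, SimpleGraph.Walk.length_transfer] at h2
    omega

/-- a maximal separated set -/
lemma exists_sep (G : SimpleGraph V) (T : Finset V) (D : ℕ) : ∃ S ⊆ T,
    (∀ v ∈ S, ∀ w ∈ S, v ≠ w → D < G.dist v w) ∧ ∀ t ∈ T, ∃ v ∈ S, G.dist t v ≤ D := by
  classical
  obtain ⟨S, hS, hmax⟩ := exists_max_image
    (T.powerset.filter fun S => ∀ v ∈ S, ∀ w ∈ S, v ≠ w → D < G.dist v w) card
    ⟨∅, by simp⟩
  rw [mem_filter, mem_powerset] at hS
  refine ⟨S, hS.1, hS.2, ?_⟩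
  intro t ht
  by_contra hcon
  push Not at hcon
  have htS : t ∉ S := by
    intro h
    have := hcon t h
    rw [SimpleGraph.dist_self] at this
    omega
  have h1 := hmax (insert t S) (by
    rw [mem_filter, mem_powerset]
    refine ⟨insert_subset ht hS.1, ?_⟩
    intro v hv w hw hvw
    rw [mem_insert] at hv hw
    rcases hv with rfl | hv <;> rcases hw with rfl | hw
    · exact absurd rfl hvw
    · exact hcon w hw
    · rw [SimpleGraph.dist_comm]; exact hcon v hv
    · exact hS.2 v hv w hw hvw)
  rw [card_insert_of_notMem htS] at h1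
  omega

end Pool.Agent.helper42.PB
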