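import Mathlib
import Pool.Agent.helper42.PB.Non
import Pool.Agent.helper42.PB.Exc

set_option autoImplicit false

/-!
# Planting a cycle in a regular graph, part 9: the finite statement
-/

namespace Pool.Agent.helper42.PB

open Finset
open Pool.Agent.helper5.RG Pool.Agent.helper99.TV

variable {V : Type*} [Fintype V] [DecidableEq V] {G : SimpleGraph V} [DecidableRel G.Adj]
  {m r q : ℕ}

lemma spec_mono {V : Type*} [Fintype V] [DecidableEq V] {G : SimpleGraph V} [DecidableRel G.Adj]
    {d : ℕ} {L M : ℝ} (h : Spec G d L) (hLM : L ≤ M) : Spec G d M := by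
  intro μ hμ
  rcases h μ hμ with h1 | h1
  · exact Or.inl h1
  · exact Or.inr (h1.trans hLM)

/-- the choice of `n` and `y'` for a center -/
lemma exists_site (hq : 2 ≤ q) (hc : G.Connected) (hreg : G.IsRegularOfDegree (q + 1)) {z : V}
    (hz : (G.induce {x : V | G.dist z x ≤ 3 * m + 4}).IsTree) (C : Finset V) (f₁ f₂ : V → V) :
    ∃ n y' : V, G.dist z n = m + 1 ∧ G.dist z y' = m + 2 ∧ G.dist n y' = 2 * m + 3 ∧
      q ^ m * (C.filter fun t => f₁ t = n).card ≤ C.card ∧
      q ^ m * (C.filter fun t => f₂ t = y').card ≤ C.card := by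
  classical
  have hdeg : 1 < (G.neighborFinset z).card := by
    rw [SimpleGraph.card_neighborFinset_eq_degree, hreg z]; omega
  obtain ⟨a, ha, b, hb, hab⟩ := one_lt_card.1 hdeg
  rw [SimpleGraph.mem_neighborFinset] at ha hb
  have hda : G.dist z a = 1 := SimpleGraph.dist_eq_one_iff_adj.2 ha
  have hdb : G.dist z b = 1 := SimpleGraph.dist_eq_one_iff_adj.2 hb
  have hca : (hA G a z m).card = q ^ m := by
    have h1 := (half_card hc hreg ha.symm (ρ := m + 1)
      (fun x hx => W_of_tree hc hz (k := m + 2) (by omega) (by omega)) m (by omega)).1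
    exact_mod_cast h1
  have hcb : (hA G b z (m + 1)).card = q ^ (m + 1) := by
    have h1 := (half_card hc hreg hb.symm (ρ := m + 1)
      (fun x hx => W_of_tree hc hz (k := m + 2) (by omega) (by omega)) (m + 1) (by omega)).1
    exact_mod_cast h1
  have hq0 : 0 < q := by omega
  obtain ⟨n, hn, hn2⟩ := exists_small (hA G a z m) C f₁ (card_pos.1 (by rw [hca]; positivity))
  obtain ⟨y', hy, hy2⟩ := exists_small (hA G b z (m + 1)) C f₂
    (card_pos.1 (by rw [hcb]; positivity))
  rw [mem_hA] at hn hy
  rw [hca] at hn2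
  rw [hcb] at hy2
  refine ⟨n, y', hn.2, hy.2, ?_, hn2, ?_⟩
  · have h1 := cross hc (R := 2 * m + 3) ha hb hab (x := n) (by omega)
      (fun w hw => W_of_tree hc hz (k := 2 * m + 3) (by omega) hw) (m + 1) (by omega) y'
      hy.2 hy.1
    omega
  · refine le_trans ?_ hy2
    exact Nat.mul_le_mul_right _ (Nat.pow_le_pow_right hq0 (by omega))

open Classical in
/-- **planting**: the finite statement -/
theorem plant (hq : 2 ≤ q) (hm : 1 ≤ m) (hr : 5 * m + 7 ≤ r) (hc : G.Connected)
    (hreg : G.IsRegularOfDegree (q + 1)) {L : ℝ} (hs : Spec G (q + 1) L)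
    (hlt : L + 72 / (m : ℝ) ^ 3 < ((q + 1 : ℕ) : ℝ)) :
    ∃ (H : SimpleGraph V) (_ : DecidableRel H.Adj), H.Connected ∧ H.IsRegularOfDegree (q + 1) ∧
      Spec H (q + 1) (max (2 * Real.sqrt q) (L + 72 / (m : ℝ) ^ 3)) ∧
      q ^ m * (univ.filter fun t => ¬ Bad H r t).card ≤ 2 * Fintype.card V ∧
      q ^ (2 * m + 1) * (univ.filter fun p : V × V => ¬ (H.Adj p.1 p.2 ↔ G.Adj p.1 p.2)).card ≤
        8 * Fintype.card V ∧
      q ^ (2 * m + 1) * ((H.adjMatrix ℝ).charpoly.roots.filter fun μ : ℝ =>
        |μ| ≠ ((q + 1 : ℕ) : ℝ) ∧ max (2 * Real.sqrt q) L < |μ|).card ≤ 8 * Fintype.card V := by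
  classical
  set T : Finset V := univ.filter fun t => ¬ Bad G (3 * m + 4) t with hT
  have hTt : ∀ t ∈ T, (G.induce {x : V | G.dist t x ≤ 3 * m + 4}).IsTree := by
    intro t ht
    rw [hT, mem_filter] at ht
    exact not_not.1 ht.2
  obtain ⟨Z, hZT, hfar, hcov⟩ := exists_sep G T (4 * m + 2)
  have hpos : 0 ≤ 72 / (m : ℝ) ^ 3 := by positivity
  rcases Z.eq_empty_or_nonempty with hZ | hZ
  · -- nothing to do
    refine ⟨G, inferInstance, hc, hreg, spec_mono hs (le_max_of_le_right (by linarith)), ?_, ?_,
      ?_⟩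
    · have h1 : (univ.filter fun t => ¬ Bad G r t) = ∅ := by
        rw [filter_eq_empty_iff]
        intro t _ ht
        rw [Bad, not_not] at ht
        have h2 := tree_mono hc ht (u := t) (k := 3 * m + 4)
          (by rw [SimpleGraph.dist_self]; omega)
        have h3 : t ∈ T := by
          rw [hT, mem_filter]
          exact ⟨mem_univ _, not_not.2 h2⟩
        obtain ⟨v, hv, -⟩ := hcov t h3
        rw [hZ] at hv
        exact absurd hv (notMem_empty v)
      rw [h1]; simp
    · simp
    · rw [exc_zero (spec_mono hs (le_max_right _ _))]; simp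
  -- nearest centers
  have hσ : ∀ t : V, ∃ z ∈ Z, ∀ w ∈ Z, G.dist t z ≤ G.dist t w := fun t =>
    Z.exists_min_image (fun w => G.dist t w) hZ
  choose σ hσZ hσn using hσ
  choose p hp using fun t => hc.exists_walk_length_eq_dist t (σ t)
  set f₁ : V → V := fun t => (p t).reverse.getVert (m + 1) with hf₁
  set f₂ : V → V := fun t => (p t).reverse.getVert (m + 2) with hf₂
  set C : V → Finset V := fun z => univ.filter fun t => σ t = z with hC
  have hsite : ∀ z : V, ∃ n y' : V, z ∈ Z → (G.dist z n = m + 1 ∧ G.dist z y' = m + 2 ∧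
      G.dist n y' = 2 * m + 3 ∧ q ^ m * ((C z).filter fun t => f₁ t = n).card ≤ (C z).card ∧
      q ^ m * ((C z).filter fun t => f₂ t = y').card ≤ (C z).card) := by
    intro z
    by_cases hz : z ∈ Z
    · obtain ⟨n, y', h1⟩ := exists_site (m := m) hq hc hreg (hTt z (hZT hz)) (C z) f₁ f₂
      exact ⟨n, y', fun _ => h1⟩
    · exact ⟨z, z, fun h => absurd h hz⟩
  choose n y' hny using hsite
  have hnz : ∀ z ∈ Z, n z ≠ z := by
    intro z hz h
    have h1 := (hny z hz).1
    rw [h, SimpleGraph.dist_self] at h1
    omega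
  have hyz : ∀ z ∈ Z, y' z ≠ z := by
    intro z hz h
    have h1 := (hny z hz).2.1
    rw [h, SimpleGraph.dist_self] at h1
    omega
  have hD : Site G m (3 * m + 4) Z (fun z => par G z (n z)) n (fun z => par G z (y' z)) y' :=
    { tree := fun z hz => hTt z (hZT hz)
      far := hfar
      dv := fun z hz => by
        have h1 := (par_spec G hc (hnz z hz)).2
        have h2 := (hny z hz).1
        omega
      an := fun z hz => (par_spec G hc (hnz z hz)).1.symm
      dn := fun z hz => (hny z hz).1
      dy := fun z hz => by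
        have h1 := (par_spec G hc (hyz z hz)).2
        have h2 := (hny z hz).2.1
        omega
      ay := fun z hz => (par_spec G hc (hyz z hz)).1.symm
      dy' := fun z hz => (hny z hz).2.1
      dny' := fun z hz => (hny z hz).2.2.1 }
  have hSw := site_sw hm hc hD
  have hPl := site_pl hm (by omega) hc hD
  have hcast : (((m - 1 : ℕ) : ℝ) + 1) = m := by
    rw [Nat.cast_sub hm]; simp
  have hZc : q ^ (2 * m + 1) * Z.card ≤ Fintype.card V := by
    have h4 : ∀ z ∈ Z, q ^ (2 * m + 1) ≤ (sph G z (2 * m + 1)).card := by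
      intro z hz
      rw [sph_card_of_tree G hc hreg z (3 * m + 4) (hTt z (hZT hz)) (2 * m) (by omega), pow_succ]
      nlinarith [Nat.zero_le (q ^ (2 * m))]
    calc q ^ (2 * m + 1) * Z.card = ∑ _z ∈ Z, q ^ (2 * m + 1) := by
          rw [sum_const, smul_eq_mul, mul_comm]
      _ ≤ ∑ z ∈ Z, (sph G z (2 * m + 1)).card := sum_le_sum h4
      _ = (Z.biUnion fun z => sph G z (2 * m + 1)).card := by
          rw [card_biUnion]
          intro z hz w hw hzw
          rw [Function.onFun, disjoint_left]
          intro x hx1 hx2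
          rw [sph, mem_filter] at hx1 hx2
          have h5 := hfar z hz w hw hzw
          have h6 : G.dist z w ≤ G.dist z x + G.dist x w := hc.dist_triangle
          rw [SimpleGraph.dist_comm (u := x) (v := w)] at h6
          omega
      _ ≤ Fintype.card V := card_le_univ _
  have hIc : Fintype.card (Ix Z) = 4 * Z.card := by
    rw [Fintype.card_prod, Fintype.card_prod, Fintype.card_bool, Fintype.card_coe]
    ring
  refine ⟨swg hSw, inferInstance, ?_, swg_regular hSw hreg, ?_, ?_, ?_, ?_⟩
  · refine swg_conn hq hc hreg hSw hPl hs (site_bip hc hD) ?_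
    rw [hcast]; exact hlt
  · have h1 := swg_spec hq hc hreg hSw hPl hs (site_bip hc hD)
    rw [hcast] at h1
    exact h1
  · -- counting
    set B : Finset V := univ.filter fun t => f₁ t = n (σ t) ∨ f₂ t = y' (σ t) with hB
    have hsub : (univ.filter fun t => ¬ Bad (swg hSw) r t) ⊆ B := by
      intro t ht
      rw [mem_filter] at ht
      by_contra hcon
      rw [hB, mem_filter, not_and, not_or] at hcon
      obtain ⟨hc1, hc2⟩ := hcon (mem_univ t)
      have hlen : (p t).reverse.length = G.dist (σ t) t := by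
        rw [SimpleGraph.Walk.length_reverse, hp t, SimpleGraph.dist_comm]
      have hn1 : n (σ t) ∉ (p t).support := by
        intro h1
        have h2 : n (σ t) ∈ (p t).reverse.support := by
          rw [SimpleGraph.Walk.support_reverse, List.mem_reverse]; exact h1
        have h3 := geo_getVert hc (p t).reverse hlen h2
        rw [(hny (σ t) (hσZ t)).1] at h3
        exact hc1 h3
      have hy1 : y' (σ t) ∉ (p t).support := by
        intro h1
        have h2 : y' (σ t) ∈ (p t).reverse.support := by
          rw [SimpleGraph.Walk.support_reverse, List.mem_reverse]; exact h1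
        have h3 := geo_getVert hc (p t).reverse hlen h2
        rw [(hny (σ t) (hσZ t)).2.1] at h3
        exact hc2 h3
      by_cases hnear : G.dist t (σ t) + (m + 1) ≤ r
      · exact ht.2 (ball_near hm hc hD (hσZ t) hnear (hσn t) (p t) (hp t) hn1 hy1)
      · have ht2 := ht.2
        rw [Bad, not_not] at ht2
        have h1 : (G.induce {u : V | G.dist t u ≤ 3 * m + 4}).IsTree := by
          refine far_tree hc hSw (by omega) ?_ ht2
          rintro ⟨w, ab⟩
          have h2 := hσn t w.1 w.2
          have h3 := site_dist_le hD w ab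
          set E := ee Z (fun z => par G z (n z)) n (fun z => par G z (y' z)) y' (w, ab) with hE
          have h4 : G.dist t w.1 ≤ G.dist t E + G.dist E w.1 := hc.dist_triangle
          rw [SimpleGraph.dist_comm (u := E) (v := w.1)] at h4
          omega
        have h2 : t ∈ T := by
          rw [hT, mem_filter]
          exact ⟨mem_univ _, not_not.2 h1⟩
        obtain ⟨w, hw, hw2⟩ := hcov t h2
        have h3 := hσn t w hw
        omega
    have h1 : B.card = ∑ z ∈ Z, (B.filter fun t => σ t = z).card :=
      card_eq_sum_card_fiberwise fun t _ => hσZ t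
    have h2 : Fintype.card V = ∑ z ∈ Z, (C z).card := by
      rw [← card_univ]
      exact card_eq_sum_card_fiberwise fun t _ => hσZ t
    have h3 : ∀ z ∈ Z, q ^ m * (B.filter fun t => σ t = z).card ≤ 2 * (C z).card := by
      intro z hz
      obtain ⟨-, -, -, h4, h5⟩ := hny z hz
      have h6 : (B.filter fun t => σ t = z) ⊆
          ((C z).filter fun t => f₁ t = n z) ∪ ((C z).filter fun t => f₂ t = y' z) := by
        intro t ht
        rw [mem_filter, hB, mem_filter] at ht
        obtain ⟨⟨-, h7⟩, h8⟩ := ht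
        rw [h8] at h7
        have h9 : t ∈ C z := mem_filter.2 ⟨mem_univ _, h8⟩
        rcases h7 with h7 | h7
        · exact mem_union.2 (Or.inl (mem_filter.2 ⟨h9, h7⟩))
        · exact mem_union.2 (Or.inr (mem_filter.2 ⟨h9, h7⟩))
      have h7 := (card_le_card h6).trans (card_union_le _ _)
      calc q ^ m * (B.filter fun t => σ t = z).card
          ≤ q ^ m * (((C z).filter fun t => f₁ t = n z).card +
              ((C z).filter fun t => f₂ t = y' z).card) := Nat.mul_le_mul_left _ h7
        _ = q ^ m * ((C z).filter fun t => f₁ t = n z).card +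
              q ^ m * ((C z).filter fun t => f₂ t = y' z).card := by ring
        _ ≤ 2 * (C z).card := by omega
    calc q ^ m * (univ.filter fun t => ¬ Bad (swg hSw) r t).card
        ≤ q ^ m * B.card := Nat.mul_le_mul_left _ (card_le_card hsub)
      _ = ∑ z ∈ Z, q ^ m * (B.filter fun t => σ t = z).card := by rw [h1, mul_sum]
      _ ≤ ∑ z ∈ Z, 2 * (C z).card := sum_le_sum h3
      _ = 2 * Fintype.card V := by rw [h2, mul_sum]
  · -- the changed edges
    have h1 : (univ.filter fun p : V × V => ¬ ((swg hSw).Adj p.1 p.2 ↔ G.Adj p.1 p.2)) ⊆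
        ((univ : Finset (Ix Z)).image fun i => (ee Z (fun z => par G z (n z)) n
          (fun z => par G z (y' z)) y' i, ee Z (fun z => par G z (n z)) n
          (fun z => par G z (y' z)) y' (hh' Z i))) ∪
        ((univ : Finset (Ix Z)).image fun i => (ee Z (fun z => par G z (n z)) n
          (fun z => par G z (y' z)) y' i, ee Z (fun z => par G z (n z)) n
          (fun z => par G z (y' z)) y' (gg' Z i))) := by
      rintro ⟨a, b⟩ hab
      rw [mem_filter] at hab
      have h2 := hab.2
      rw [swg_adj] at h2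
      rw [mem_union, mem_image, mem_image]
      by_contra hcon
      rw [not_or] at hcon
      obtain ⟨h3, h4⟩ := hcon
      apply h2
      constructor
      · rintro (⟨h5, -⟩ | ⟨i, h5, h6⟩)
        · exact h5
        · exact absurd ⟨i, mem_univ _, by rw [h5, h6]⟩ h4
      · intro h5
        refine Or.inl ⟨h5, ?_⟩
        rintro ⟨i, h6, h7⟩
        exact h3 ⟨i, mem_univ _, by rw [h6, h7]⟩
    have h2 : (univ.filter fun p : V × V =>
        ¬ ((swg hSw).Adj p.1 p.2 ↔ G.Adj p.1 p.2)).card ≤ 8 * Z.card := by
      refine (card_le_card h1).trans ((card_union_le _ _).trans ?_)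
      have h3 : (univ : Finset (Ix Z)).card = 4 * Z.card := by rw [card_univ, hIc]
      have h4 := card_image_le (s := (univ : Finset (Ix Z))) (f := fun i =>
        (ee Z (fun z => par G z (n z)) n (fun z => par G z (y' z)) y' i,
          ee Z (fun z => par G z (n z)) n (fun z => par G z (y' z)) y' (hh' Z i)))
      have h5 := card_image_le (s := (univ : Finset (Ix Z))) (f := fun i =>
        (ee Z (fun z => par G z (n z)) n (fun z => par G z (y' z)) y' i,
          ee Z (fun z => par G z (n z)) n (fun z => par G z (y' z)) y' (gg' Z i)))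
      omega
    calc q ^ (2 * m + 1) * (univ.filter fun p : V × V =>
          ¬ ((swg hSw).Adj p.1 p.2 ↔ G.Adj p.1 p.2)).card
        ≤ q ^ (2 * m + 1) * (8 * Z.card) := Nat.mul_le_mul_left _ h2
      _ = 8 * (q ^ (2 * m + 1) * Z.card) := by ring
      _ ≤ 8 * Fintype.card V := by omega
  · -- the exceptional eigenvalues
    have h1 := exc_count hc hreg hSw (M := max (2 * Real.sqrt q) L)
      (le_max_of_le_left (by positivity)) (spec_mono hs (le_max_right _ _)) (site_bip hc hD)
    rw [hIc] at h1
    calc q ^ (2 * m + 1) * (((swg hSw).adjMatrix ℝ).charpoly.roots.filter fun μ : ℝ =>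
        |μ| ≠ ((q + 1 : ℕ) : ℝ) ∧ max (2 * Real.sqrt q) L < |μ|).card
        ≤ q ^ (2 * m + 1) * (2 * (4 * Z.card)) := Nat.mul_le_mul_left _ h1
      _ = 8 * (q ^ (2 * m + 1) * Z.card) := by ring
      _ ≤ 8 * Fintype.card V := by omega

end Pool.Agent.helper42.PB
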