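import Mathlib
import Pool.Agent.helper42.PB.Plant

set_option autoImplicit false

/-!
# Planting a cycle in a regular graph, part 10: sequences
-/

namespace Pool.Agent.helper42.PB

open Finset Filter
open Pool.Agent.helper5.RG Pool.Agent.helper99.TV

/-- **planting**, finite form -/
theorem fin_plant (d : ℕ) (hd : 3 ≤ d) (N : ℕ) (H : SimpleGraph (Fin N)) [DecidableRel H.Adj]
    (L : ℝ) (m r : ℕ) (hm : 1 ≤ m) (hr : 5 * m + 7 ≤ r) (hc : H.Connected)
    (hreg : H.IsRegularOfDegree d) (hs : Spec H d L) (hlt : L + 72 / (m : ℝ) ^ 3 < d) :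
    ∃ (G : SimpleGraph (Fin N)) (_ : DecidableRel G.Adj), G.Connected ∧ G.IsRegularOfDegree d ∧
      Spec G d (max (2 * Real.sqrt ((d : ℝ) - 1)) (L + 72 / (m : ℝ) ^ 3)) ∧
      (d - 1) ^ m * {v : Fin N | (G.induce {u : Fin N | G.dist v u ≤ r}).IsTree}.ncard ≤ 2 * N ∧
      (d - 1) ^ (2 * m + 1) *
        {p : Fin N × Fin N | ¬ (G.Adj p.1 p.2 ↔ H.Adj p.1 p.2)}.ncard ≤ 8 * N ∧
      (d - 1) ^ (2 * m + 1) * ((G.adjMatrix ℝ).charpoly.roots.filter fun μ : ℝ =>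
        |μ| ≠ (d : ℝ) ∧ max (2 * Real.sqrt ((d : ℝ) - 1)) L < |μ|).card ≤ 8 * N := by
  classical
  obtain ⟨q, rfl⟩ : ∃ q, d = q + 1 := ⟨d - 1, by omega⟩
  obtain ⟨G, inst, h1, h2, h3, h4, h5, h6⟩ := plant (q := q) (by omega) hm hr hc hreg hs hlt
  rw [Fintype.card_fin] at h4 h5 h6
  have e1 : (((q + 1 : ℕ) : ℝ) - 1) = q := by
    rw [Nat.cast_add, Nat.cast_one, add_sub_cancel_right]
  refine ⟨G, inst, h1, h2, ?_, ?_, ?_, ?_⟩
  · rw [e1]
    exact h3
  · rw [Nat.add_sub_cancel]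
    refine le_trans (le_of_eq ?_) h4
    congr 1
    rw [← Set.ncard_coe_finset]
    congr 1
    ext v
    simp [Bad]
  · rw [Nat.add_sub_cancel]
    refine le_trans (le_of_eq ?_) h5
    congr 1
    rw [← Set.ncard_coe_finset]
    congr 1
    ext v
    simp
  · rw [Nat.add_sub_cancel]
    simp only [e1]
    exact h6

/-- balls of real radius -/
lemma ball_floor {N : ℕ} (K : SimpleGraph (Fin N)) (x : ℝ) (hx : 0 ≤ x) (v : Fin N) :
    {u : Fin N | (K.dist v u : ℝ) ≤ x} = {u : Fin N | K.dist v u ≤ ⌊x⌋₊} := by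
  ext u
  simp only [Set.mem_setOf_eq]
  exact (Nat.le_floor_iff hx).symm

/-- from powers to real powers -/
lemma rpow_bound {d m N a : ℕ} (hd : 3 ≤ d) {x : ℝ} (hx : x ≤ m) {C : ℕ}
    (h : (d - 1) ^ m * a ≤ C * N) : ((d : ℝ) - 1) ^ x * (a : ℝ) ≤ C * (N : ℝ) := by
  have h1 : ((d - 1 : ℕ) : ℝ) = (d : ℝ) - 1 := by
    rw [Nat.cast_sub (by omega), Nat.cast_one]
  have h2 : (1 : ℝ) ≤ (d : ℝ) - 1 := by
    have : (3 : ℝ) ≤ d := by exact_mod_cast hd
    linarith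
  have h3 : ((d : ℝ) - 1) ^ x ≤ ((d : ℝ) - 1) ^ m := by
    rw [← Real.rpow_natCast]
    exact Real.rpow_le_rpow_of_exponent_le h2 hx
  have h4 : (((d - 1) ^ m * a : ℕ) : ℝ) ≤ ((C * N : ℕ) : ℝ) := by exact_mod_cast h
  rw [Nat.cast_mul, Nat.cast_mul, Nat.cast_pow, h1] at h4
  exact (mul_le_mul_of_nonneg_right h3 (Nat.cast_nonneg a)).trans h4

/-- **planting** in sequences -/
theorem seq_plant (d : ℕ) (hd : 3 ≤ d) (R : ℕ → ℝ) (hR0 : ∀ n, 0 ≤ R n)
    (hR : Tendsto R atTop atTop) (N : ℕ → ℕ)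
    (H : ∀ n, SimpleGraph (Fin (N n))) [∀ n, DecidableRel (H n).Adj] (L : ℕ → ℝ) (M : ℝ)
    (hM : M < d) (hLM : ∀ n, L n ≤ M)
    (hH : ∀ n, (H n).Connected ∧ (H n).IsRegularOfDegree d ∧ Spec (H n) d (L n)) :
    ∃ (G : ∀ n, SimpleGraph (Fin (N n))) (_ : ∀ n, DecidableRel (G n).Adj),
      (∀ n, (G n).Connected ∧ (G n).IsRegularOfDegree d ∧
        Spec (G n) d (max (2 * Real.sqrt ((d : ℝ) - 1)) (L n + 15552 / R n ^ 3))) ∧
      Tendsto (fun n => (({v : Fin (N n) | ((G n).induce {u : Fin (N n) |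
        ((G n).dist v u : ℝ) ≤ R n}).IsTree}.ncard : ℝ) / (N n : ℝ))) atTop (nhds 0) ∧
      ∀ᶠ n in atTop,
        ((d : ℝ) - 1) ^ (R n / 6) * ({v : Fin (N n) | ((G n).induce {u : Fin (N n) |
          ((G n).dist v u : ℝ) ≤ R n}).IsTree}.ncard : ℝ) ≤ 2 * N n ∧
        ((d : ℝ) - 1) ^ (R n / 3) * ({p : Fin (N n) × Fin (N n) |
          ¬ ((G n).Adj p.1 p.2 ↔ (H n).Adj p.1 p.2)}.ncard : ℝ) ≤ 8 * N n ∧
        ((d : ℝ) - 1) ^ (R n / 3) * ((((G n).adjMatrix ℝ).charpoly.roots.filter fun μ : ℝ =>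
          |μ| ≠ (d : ℝ) ∧ max (2 * Real.sqrt ((d : ℝ) - 1)) (L n) < |μ|).card : ℝ) ≤
            8 * N n := by
  classical
  set m : ℕ → ℕ := fun n => (⌊R n⌋₊ - 7) / 5 with hm
  have hm1 : ∀ n, 72 ≤ R n → 1 ≤ m n ∧ 5 * m n + 7 ≤ ⌊R n⌋₊ ∧ R n ≤ 6 * m n := by
    intro n hn
    have h1 : 72 ≤ ⌊R n⌋₊ := Nat.le_floor (by exact_mod_cast hn)
    have h2 : R n < ⌊R n⌋₊ + 1 := Nat.lt_floor_add_one _
    have h3 : m n = (⌊R n⌋₊ - 7) / 5 := rfl
    refine ⟨by omega, by omega, ?_⟩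
    have h5 : ⌊R n⌋₊ ≤ 5 * m n + 11 := by omega
    have h6 : (⌊R n⌋₊ : ℝ) ≤ 5 * m n + 11 := by exact_mod_cast h5
    linarith
  have hmt : Tendsto (fun n => (m n : ℝ)) atTop atTop := by
    have h1 : Tendsto (fun n => (1 / 6 : ℝ) * R n) atTop atTop :=
      Tendsto.const_mul_atTop (by norm_num) hR
    refine tendsto_atTop_mono' atTop ?_ h1
    filter_upwards [hR.eventually_ge_atTop 72] with n hn
    have := (hm1 n hn).2.2
    linarith
  have hsmall : Tendsto (fun n => M + 72 / (m n : ℝ) ^ 3) atTop (nhds M) := by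
    have h1 : Tendsto (fun n => 72 / (m n : ℝ) ^ 3) atTop (nhds 0) :=
      Tendsto.div_atTop tendsto_const_nhds ((tendsto_pow_atTop (by norm_num)).comp hmt)
    simpa using (tendsto_const_nhds (x := M)).add h1
  set P : ℕ → Prop := fun n => 72 ≤ R n ∧ M + 72 / (m n : ℝ) ^ 3 < d with hP
  have hev : ∀ᶠ n in atTop, P n :=
    (hR.eventually_ge_atTop 72).and (hsmall.eventually_lt_const hM)
  -- the graph for one index
  have hone : ∀ n, ∃ (G : SimpleGraph (Fin (N n))) (_ : DecidableRel G.Adj),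
      (G.Connected ∧ G.IsRegularOfDegree d ∧ Spec G d (max (2 * Real.sqrt ((d : ℝ) - 1))
        (L n + 15552 / R n ^ 3))) ∧
      (P n →
        ((d : ℝ) - 1) ^ (R n / 6) * ({v : Fin (N n) | (G.induce {u : Fin (N n) |
          (G.dist v u : ℝ) ≤ R n}).IsTree}.ncard : ℝ) ≤ 2 * N n ∧
        ((d : ℝ) - 1) ^ (R n / 3) * ({p : Fin (N n) × Fin (N n) |
          ¬ (G.Adj p.1 p.2 ↔ (H n).Adj p.1 p.2)}.ncard : ℝ) ≤ 8 * N n ∧
        ((d : ℝ) - 1) ^ (R n / 3) * (((G.adjMatrix ℝ).charpoly.roots.filter fun μ : ℝ =>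
          |μ| ≠ (d : ℝ) ∧ max (2 * Real.sqrt ((d : ℝ) - 1)) (L n) < |μ|).card : ℝ) ≤
            8 * N n) := by
    intro n
    have hpos : 0 ≤ 15552 / R n ^ 3 := by
      have := hR0 n
      positivity
    by_cases hn : P n
    · obtain ⟨hn1, hn2⟩ := hn
      obtain ⟨k1, k2, k3⟩ := hm1 n hn1
      have h4 : 72 / (m n : ℝ) ^ 3 ≤ 15552 / R n ^ 3 := by
        have h5 : R n ^ 3 ≤ (6 * m n) ^ 3 := pow_le_pow_left₀ (hR0 n) k3 3
        have h6 : (0 : ℝ) < (m n : ℝ) ^ 3 := by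
          have : (0 : ℝ) < m n := by exact_mod_cast k1
          positivity
        have h7 : 0 < R n ^ 3 := pow_pos (by linarith) 3
        rw [div_le_div_iff₀ h6 h7]
        nlinarith
      obtain ⟨G, inst, g1, g2, g3, g4, g5, g6⟩ := fin_plant d hd (N n) (H n) (L n) (m n)
        ⌊R n⌋₊ k1 k2 (hH n).1 (hH n).2.1 (hH n).2.2
        (lt_of_le_of_lt (by linarith [hLM n]) hn2)
      have hx1 : R n / 6 ≤ (m n : ℝ) := by linarith
      have hx2 : R n / 3 ≤ ((2 * m n + 1 : ℕ) : ℝ) := by push_cast; linarith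
      refine ⟨G, inst, ⟨g1, g2, spec_mono g3 (max_le_max le_rfl (by linarith))⟩,
        fun _ => ⟨?_, ?_, ?_⟩⟩
      · have e1 : {v : Fin (N n) | (G.induce {u : Fin (N n) |
              (G.dist v u : ℝ) ≤ R n}).IsTree} =
              {v : Fin (N n) | (G.induce {u : Fin (N n) |
                G.dist v u ≤ ⌊R n⌋₊}).IsTree} := by
          ext v
          simp only [Set.mem_setOf_eq]
          rw [ball_floor G _ (hR0 n) v]
        rw [e1]
        exact_mod_cast rpow_bound hd hx1 g4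
      · exact_mod_cast rpow_bound hd hx2 g5
      · exact_mod_cast rpow_bound hd hx2 g6
    · refine ⟨H n, inferInstance, ⟨(hH n).1, (hH n).2.1, spec_mono (hH n).2.2 ?_⟩,
        fun h => absurd h hn⟩
      exact le_max_of_le_right (by linarith)
  choose G inst hG1 hG2 using hone
  refine ⟨G, inst, hG1, ?_, hev.mono hG2⟩
  have hd1 : (1 : ℝ) < (d : ℝ) - 1 := by
    have : (3 : ℝ) ≤ d := by exact_mod_cast hd
    linarith
  have hpow : Tendsto (fun n => ((d : ℝ) - 1) ^ (R n / 6)) atTop atTop := by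
    have h1 : Tendsto (fun n => R n / 6) atTop atTop := hR.atTop_div_const (by norm_num)
    exact (tendsto_rpow_atTop_of_base_gt_one _ hd1).comp h1
  have hb : Tendsto (fun n => 2 / ((d : ℝ) - 1) ^ (R n / 6)) atTop (nhds 0) :=
    Tendsto.div_atTop tendsto_const_nhds hpow
  refine squeeze_zero' (Eventually.of_forall fun n => by positivity) ?_ hb
  filter_upwards [hev] with n hn
  have h1 := (hG2 n hn).1
  have h3 : (0 : ℝ) < ((d : ℝ) - 1) ^ (R n / 6) := Real.rpow_pos_of_pos (by linarith) _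
  rcases Nat.eq_zero_or_pos (N n) with h0 | h0
  · have h2 : (N n : ℝ) = 0 := by exact_mod_cast h0
    rw [h2, div_zero]
    positivity
  · have h2 : (0 : ℝ) < N n := by exact_mod_cast h0
    rw [div_le_div_iff₀ h2 h3]
    linarith

/-- **the consequence of a positive answer** -/
theorem gap_of_tree (d : ℕ) (hd : 3 ≤ d) (c : ℝ) (hc0 : 0 < c)
    (hQ : ∀ (N : ℕ → ℕ) (G : ∀ n, SimpleGraph (Fin (N n))) [∀ n, DecidableRel (G n).Adj],
      Tendsto N atTop atTop →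
      (∀ n, (G n).Connected ∧ (G n).IsRegularOfDegree d ∧
        Spec (G n) d (2 * Real.sqrt ((d : ℝ) - 1))) →
      ¬ Tendsto (fun n => (({v : Fin (N n) | ((G n).induce {u : Fin (N n) |
        ((G n).dist v u : ℝ) ≤ c * Real.log (N n)}).IsTree}.ncard : ℝ) / (N n : ℝ)))
        atTop (nhds 0)) :
    ∃ N₀ : ℕ, ∀ N : ℕ, N₀ ≤ N → ∀ (H : SimpleGraph (Fin N)) [DecidableRel H.Adj],
      H.Connected → H.IsRegularOfDegree d →
        ∃ μ : ℝ, (∃ x : Fin N → ℝ, x ≠ 0 ∧ Matrix.mulVec (H.adjMatrix ℝ) x = μ • x) ∧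
          |μ| ≠ (d : ℝ) ∧
          2 * Real.sqrt ((d : ℝ) - 1) - 15552 / (c * Real.log N) ^ 3 < |μ| := by
  classical
  by_contra hcon
  push Not at hcon
  choose N hN H inst hc hreg hsp using hcon
  have hNt : Tendsto N atTop atTop := tendsto_atTop_mono hN tendsto_id
  have hlog : Tendsto (fun n => c * Real.log (N n)) atTop atTop :=
    Tendsto.const_mul_atTop hc0
      (Real.tendsto_log_atTop.comp (tendsto_natCast_atTop_atTop.comp hNt))
  have hlogn : ∀ n, 0 ≤ c * Real.log (N n) := fun n =>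
    mul_nonneg hc0.le (Real.log_natCast_nonneg _)
  have hq : 2 * Real.sqrt ((d : ℝ) - 1) < d := by
    have h0 : (3 : ℝ) ≤ d := by exact_mod_cast hd
    have h2 := Real.sq_sqrt (show (0 : ℝ) ≤ (d : ℝ) - 1 by linarith)
    have h3 : (Real.sqrt ((d : ℝ) - 1) - 1) ≠ 0 := by
      intro h4
      have h5 : Real.sqrt ((d : ℝ) - 1) = 1 := by linarith
      rw [h5] at h2
      linarith
    have h4 := sq_pos_of_ne_zero h3
    nlinarith
  obtain ⟨G, instG, hG1, hG2, -⟩ := seq_plant d hd (fun n => c * Real.log (N n)) hlogn hlog N H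
    (fun n => 2 * Real.sqrt ((d : ℝ) - 1) - 15552 / (c * Real.log (N n)) ^ 3)
    (2 * Real.sqrt ((d : ℝ) - 1)) hq (fun n => by
      have h1 := hlogn n
      have h2 : 0 ≤ 15552 / (c * Real.log (N n)) ^ 3 := by positivity
      linarith) (fun n =>
    ⟨hc n, hreg n, fun μ hμ => by
      by_cases h1 : |μ| = (d : ℝ)
      · exact Or.inl h1
      · right
        exact hsp n μ hμ h1⟩)
  refine hQ N G hNt (fun n => ⟨(hG1 n).1, (hG1 n).2.1, ?_⟩) hG2
  have h2 := (hG1 n).2.2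
  simpa using h2

end Pool.Agent.helper42.PB
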